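import Pool.Agent.D0H82.SX.Stm

set_option autoImplicit false

/-!
Project SX, second part (strengthening in place of `SharpRemainder`): the square-root remainder is sharp for EVERY weight
`w (t / S)`, `w` a `C¹` function on `[0, 1]` which is not zero: smooth weights do not help. Statements with complete proofs.
-/

namespace Pool.Agent.D0H82.SX

open Complex Filter Topology MeasureTheory Set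
open scoped ComplexConjugate
open Pool.Agent.TH612.CF Pool.Agent.TH612.GS
open Pool.Agent.W182.KO hiding ee SS_summable DD

noncomputable section

variable {k : ℕ}

/-- `ν` is adjacent, with the sign `s` and the smaller product `N` -/
def Adj (s : Bool) (ν : Fin k ⊕ Fin k → ℕ) (N : ℕ) : Prop :=
  (s = true → (∏ j, ν (Sum.inl j)) = N ∧ (∏ j, ν (Sum.inr j)) = N + 1) ∧
  (s = false → (∏ j, ν (Sum.inr j)) = N ∧ (∏ j, ν (Sum.inl j)) = N + 1)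

/-- (10) FAM2 (25 min), variant of FAM: the products in a given window, both signs. Proof: choose an integer `j ≥ 1` and `η` in
`(0, 1]` with `(1 + 1/j) (1 + η)² < x₂ / x₁` (strictly), `K = ⌈√(x₁ S / j)⌉₊`, `L = ⌊η K⌋₊`; for coprime `a, b` in `(K, K + L]` there is a unique `n` in
`[j b, (j+1) b)` with `b ∣ a n + 1`; `x₁ S ≤ j K² ≤ a n ≤ (j+1) (1+η)² K² ≤ x₂ S` for large `S`; entries `≤ 4 (j+1) K`. The pairs in the square which are not coprime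
are at most `∑_{d=2}^{2K} (L/d + 1)² ≤ (3/4) L² + 2 L (1 + log 2K) + 2K`. For `s = false` exchange the two blocks. -/
def S_FAM2 : Prop := ∀ (k : ℕ) (s : Bool) (x₁ x₂ : ℝ), 2 ≤ k → 0 < x₁ → x₁ < x₂ → ∃ c C S₀ : ℝ, 0 < c ∧ 1 ≤ C ∧ 1 ≤ S₀ ∧
  ∀ S : ℝ, S₀ ≤ S → ∃ F : Finset (Fin k ⊕ Fin k → ℕ), c * S ≤ (F.card : ℝ) ∧ (F.card : ℝ) ≤ C * S ∧
    ∀ ν ∈ F, (∀ i, 1 ≤ ν i ∧ (ν i : ℝ) ≤ C * Real.sqrt S) ∧ ∃ N : ℕ, Adj s ν N ∧ x₁ * S ≤ (N : ℝ) ∧ (N : ℝ) ≤ x₂ * S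

/-- the coefficient of the character `ch ν` with the weight `w` -/
def gw (w : ℝ → ℂ) (S : ℝ) (ν : Fin k ⊕ Fin k → ℕ) : ℂ :=
  (wt ν : ℂ) * (∫ t in (0:ℝ)..S, w (t / S) * Complex.exp (I * (t : ℂ) * (thv ν : ℝ))) *
    (1 - Complex.exp (I * (S : ℂ) * (thv ν : ℝ)))

/-- (11) GV2 (40 min): the size of the coefficients. Proof: `W(ξ) = ∫_0^1 w(x) e^(iξx) dx` is continuous, and
`∫_0^S w(t/S) e^(itθ) dt = S W(Sθ)`. There is a real `ξ₀` with `W(ξ₀) (1 - e^(iξ₀)) ≠ 0`: else `W(ξ) = 0` for all `ξ` which are not multiples of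
`2π`, so for all `ξ` (continuity), the Fourier transform of `w` on `[0,1]` (extended by `0`) vanishes, and by Fourier inversion
(`MeasureTheory.Integrable.fourierInv_fourier_eq` at points of continuity) `w = 0` on `(0,1)`, so on `[0,1]`. `ξ₀ ≠ 0`, `s` = its sign;
`|W(ξ) (1 - e^(iξ))| ≥ c₁` for `|ξ - ξ₀| ≤ δ`. As `thv ν = ± log (1 + 1/N)`, `|S thv ν ∓ S/N| ≤ S/N²`, the bound holds for
`N/S` in a small window around `1/|ξ₀|` and large `S`; `S wt ν ≥ S / (N+1)`. -/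
def S_GV2 : Prop := ∀ w : ℝ → ℂ, Continuous w → (∃ x ∈ Icc (0:ℝ) 1, w x ≠ 0) →
  ∃ (s : Bool) (c x₁ x₂ S₀ : ℝ), 0 < c ∧ 0 < x₁ ∧ x₁ < x₂ ∧ 1 ≤ S₀ ∧
    ∀ (k : ℕ) (S : ℝ) (ν : Fin k ⊕ Fin k → ℕ) (N : ℕ), S₀ ≤ S → (∀ i, 1 ≤ ν i) → Adj s ν N →
      x₁ * S ≤ (N : ℝ) → (N : ℝ) ≤ x₂ * S → c ≤ ‖gw w S ν‖

/-- the difference of two consecutive intervals, with the weight `w` -/
def DzW (w : ℝ → ℂ) (S : ℝ) (γ : Fin k ⊕ Fin k → ℝ) : ℂ :=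
  (∫ t in (0:ℝ)..S, w (t / S) * Zg γ t) - ∫ t in (0:ℝ)..S, w (t / S) * Zg γ (t + S)

/-- (12) LOW2 (25 min), from `S_COEF`, `S_FAM2`, `S_GV2`: variant of LOW. Proof: as for LOW: `s, c₁, x₁, x₂` from `S_GV2`, `F` from `S_FAM2`,
`b ν = gw w S ν` on `F`; `∫ DzW conj (ch ν) = (dl k * T)^(2k) * gw w S ν + O(‖w‖ * 2S * C T^(-1/16) T^(2k) wt ν)`, since
`∫_0^S w(t/S) e^(i(t+S)θ) dt = e^(iSθ) ∫_0^S w(t/S) e^(itθ) dt`; `S * wt ν ≤ S / N ≤ 1/x₁`, `c₁ ≤ ‖gw‖ ≤ 2 ‖w‖ / x₁`. `X = ⌊C √S⌋₊`. -/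
def S_LOW2 : Prop := ∀ (k : ℕ) (w : ℝ → ℂ), 2 ≤ k → Continuous w → (∃ x ∈ Icc (0:ℝ) 1, w x ≠ 0) →
  ∃ c A S₀ T₀ : ℝ, 0 < c ∧ 1 ≤ A ∧ 1 ≤ S₀ ∧ 4 ≤ T₀ ∧ ∀ (T S : ℝ), T₀ ≤ T → S₀ ≤ S →
  S ≤ T / 24 → ∃ (X : ℕ) (b : (Fin k ⊕ Fin k → ℕ) → ℂ), (X : ℝ) ^ 2 ≤ A * T ∧
    ∑ ν ∈ tup k X, ‖b ν‖ ^ 2 ≤ A * S ∧
    c * S * T ^ (2 * k) ≤ ‖∫ γ, DzW w S γ * conj (∑ ν ∈ tup k X, b ν * ch ν γ) ∂(mB k T)‖

/-- the remainder with the weight `w` -/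
def DW (w : ℝ → ℂ) (S : ℝ) (γ : Fin k ⊕ Fin k → ℝ) : ℂ :=
  ∫ t in (0:ℝ)..S, w (t / S) * (Zg γ t - ((Nat.factorial k : ℂ) ^ 2)⁻¹ * Qs t (fun i => (γ i : ℂ)))

/-- (13) BYP (20 min): partial integration, pointwise. Proof: `R(t) = ∫_0^t F`, `R' = F`, `R(0) = 0`;
`intervalIntegral.integral_mul_deriv_eq_deriv_mul` with `u t = w (t/S)`, `v = R`, `u' t = w' (t/S) / S`; `K` bounds `w`, `w'` on `[0,1]`. -/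
def S_BYP : Prop := ∀ (w : ℝ → ℂ) (F : ℝ → ℂ) (S K : ℝ), ContDiff ℝ 1 w → Continuous F → 0 < S →
  (∀ x ∈ Icc (0:ℝ) 1, ‖w x‖ ≤ K ∧ ‖deriv w x‖ ≤ K) →
  ‖∫ t in (0:ℝ)..S, w (t / S) * F t‖ ≤ K * ‖∫ t in (0:ℝ)..S, F t‖ + K * (S⁻¹ * ∫ t in (0:ℝ)..S, ‖∫ u in (0:ℝ)..t, F u‖)

/-- (14) MSW (35 min), from `S_BYP` and `Pool.Agent.D0H82.SR.S_MS`: the mean square of `DW`. Proof: by `S_BYP` and Cauchy's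
inequality `‖DW‖² ≤ 2K² ‖DD S γ‖² + 2K² S⁻¹ ∫_0^S ‖DD t γ‖² dt`; Tonelli and `S_MS` for all `t ≤ S`. Measurability:
`Pool.Agent.D0H82.SR.DD_contOn` (needs `S_INV`); the joint continuity of `(t, γ) ↦ DD t γ` on `Sep` is proved in the same way
(`DD_eq`). -/
def S_MSW : Prop := ∀ (k : ℕ) (w : ℝ → ℂ) (ε : ℝ), 0 < ε → ContDiff ℝ 1 w → ∃ C T₀ : ℝ, 0 < C ∧ 4 ≤ T₀ ∧
  ∀ (T S : ℝ), T₀ ≤ T → 0 < S → S ≤ T →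
  ∫⁻ γ in Sep k T, ENNReal.ofReal (‖DW w S γ‖ ^ 2) ∂(mP (Fin k ⊕ Fin k) T) ≤
    ENNReal.ofReal (C * T ^ ε * T ^ (2 * k) * S)

/-- (15) FINW (helper82): the final theorem. -/
def S_FINW : Prop := ∀ (k : ℕ) (w : ℝ → ℂ) (ε : ℝ), 2 ≤ k → ContDiff ℝ 1 w → (∃ x ∈ Icc (0:ℝ) 1, w x ≠ 0) → 0 < ε →
  ∃ c T₀ : ℝ, 0 < c ∧ 4 ≤ T₀ ∧ ∀ (T S : ℝ), T₀ ≤ T → T ^ ε ≤ S → S ≤ T / 24 →
  ENNReal.ofReal (c * S * T ^ (2 * k)) ≤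
    ∫⁻ γ in Sep k T, ENNReal.ofReal (‖DW w S γ‖ ^ 2) ∂(mP (Fin k ⊕ Fin k) T) ∧
  ∫⁻ γ in Sep k T, ENNReal.ofReal (‖DW w S γ‖ ^ 2) ∂(mP (Fin k ⊕ Fin k) T) ≤
    ENNReal.ofReal (T ^ ε * S * T ^ (2 * k)) ∧
  ENNReal.ofReal (T ^ (2 * k - ε : ℝ)) ≤
    mP (Fin k ⊕ Fin k) T {γ | (∀ i, 0 ≤ γ i ∧ γ i ≤ T) ∧ c * S ^ (1 / 2 : ℝ) ≤ ‖DW w S γ‖}

end

end Pool.Agent.D0H82.SX
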