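import Pool.Agent.D0H82.SR.Stm

set_option autoImplicit false

/-!
Project SX (MP_07318d_nt, slot 3, helper82): the square-root remainder for generic shifts is sharp: the mean
square of the remainder over the shift vectors is `S^(1+o(1))`, and it is at least `c S^(1/2)` for shift vectors of
measure at least `T^(2k-ε)`. Statements of the modules, with complete proofs in the docstrings. All modules are independent.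

Useful library: `Pool.Agent.TH612.GS.Stm` (z, zN, PN, ch, wt, tup, mP), `Pool.Agent.TH612.GS.Asm1` (`Zg_fz`, `z_cont`),
`Pool.Agent.TH321.GF.AQ` (`t_AQ : S_AQ`, `S_AQ` is in `Pool.Agent.TH612.GS.Stm3`), `Pool.Agent.D0H82.SR.{B,C,D,O}`
(`TMV2`, `divpow`, `logpow`, `harm`, `inv_log`, `DD_trans`), `Pool.Agent.TH406.GS.CHI` (`Osc`, `osc`, `chi_eq`).
-/

namespace Pool.Agent.D0H82.SX

open Complex Filter Topology MeasureTheory Set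
open scoped ComplexConjugate
open Pool.Agent.TH612.CF Pool.Agent.TH612.GS
open Pool.Agent.W182.KO hiding ee SS_summable DD

noncomputable section

variable {k : ℕ}

/-- the relative side length of the box -/
def dl (k : ℕ) : ℝ := 1 / (16 * (k + 1))

/-- the relative corner of the box: the first block is in `[1/2, 5/8]`, the second one in `[1/8, 1/4]`, and all the
coordinates are separated by at least `dl k` -/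
def ul (k : ℕ) : Fin k ⊕ Fin k → ℝ :=
  Sum.elim (fun j => 1 / 2 + 2 * (j : ℕ) * dl k) (fun j => 1 / 8 + 2 * (j : ℕ) * dl k)

/-- the measure on the box -/
def mB (k : ℕ) (T : ℝ) : Measure (Fin k ⊕ Fin k → ℝ) :=
  Measure.pi fun i => volume.restrict (Icc (ul k i * T) ((ul k i + dl k) * T))

/-- the frequency -/
def thv (ν : Fin k ⊕ Fin k → ℕ) : ℝ := (∑ j, Real.log (ν (Sum.inr j))) - ∑ j, Real.log (ν (Sum.inl j))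

/-- (1) MEAN (35 min): twisted first moment of zeta. Proof: with `X = ⌈2T⌉₊` replace `z` by `PN X` (`t_AQ`, error
`C T^(1/2) log T`, `‖n^(iu)‖ = 1`). `∫ PN X(u) n^(iu) = ∑_{m ≤ X} m^(-1/2) ∫_A^B (n/m)^(iu) du`; the term `m = n` is the main
term, the others are at most `m^(-1/2) * 2 / |log n - log m|`. For `m < n`: `1 / log (n/m) ≤ n / (n-m)` (`inv_log` in
`D0H82/SR/D.lean`), so the term is at most `2 (m^(-1/2) + m^(1/2) / (n-m))`; for `m > n` at most `2 m^(1/2) / (m-n)`. The sum is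
`≤ C X^(1/2) (1 + log X)`. -/
def S_MEAN : Prop := ∃ C T₀ : ℝ, 0 < C ∧ 3 ≤ T₀ ∧ ∀ (T A B : ℝ) (n : ℕ), T₀ ≤ T → 0 ≤ A → A ≤ B → B ≤ 2 * T →
  1 ≤ n → (n : ℝ) ≤ T →
  ‖(∫ u in A..B, z u * (n : ℂ) ^ (I * (u : ℂ))) - ((B - A : ℝ) : ℂ) * (((n : ℝ) ^ (-(1 / 2) : ℝ) : ℝ) : ℂ)‖ ≤
    C * T ^ (1 / 2 : ℝ) * Real.log T

/-- (2) COEF (40 min), from `S_MEAN`: the coefficient of the character `ch ν` of `Zg γ t` on the box. Proof: the integrand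
is a product over `i` of functions of `γ i` (`Zg_fz`, definition of `ch`), so the integral is the product of `2 k`
one-dimensional integrals (`MeasureTheory.integral_fintype_prod_eq_prod`); after the substitution `u = t + γ i` the factor of
`inl j` is `ν^(-it) ∫_A^B z(u) ν^(iu) du`, that of `inr j` is `ν^(it)` times the conjugate of such an integral, `B - A = dl k * T`,
`B ≤ 2 T`. By `S_MEAN` each factor is `a + e`, `‖a‖ = dl k * T * ν^(-1/2)`, `‖e‖ ≤ η ‖a‖`,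
`η = C T^(1/2) log T / (dl k * T * ν^(-1/2)) ≤ C' T^(-1/16)`, as `ν ≤ T^(3/4)`. The product of the `a` is the main term, its modulus
is `(dl k * T)^(2k) * wt ν ≤ T^(2k) * wt ν`. -/
def S_COEF : Prop := ∀ k : ℕ, ∃ C T₀ : ℝ, 0 < C ∧ 3 ≤ T₀ ∧ ∀ (T t : ℝ) (ν : Fin k ⊕ Fin k → ℕ), T₀ ≤ T →
  0 ≤ t → t ≤ T / 12 → (∀ i, 1 ≤ ν i ∧ (ν i : ℝ) ≤ T ^ (3 / 4 : ℝ)) →
  ‖(∫ γ, Zg γ t * conj (ch ν γ) ∂(mB k T)) -
    (((dl k * T) ^ (2 * k) * wt ν : ℝ) : ℂ) * Complex.exp (I * (t : ℂ) * (thv ν : ℝ))‖ ≤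
    C * T ^ (-(1 / 16) : ℝ) * T ^ (2 * k) * wt ν

/-- (3) FAM (40 min), pure combinatorics: many solutions of `m₁ m₂ = n₁ n₂ + 1`. Proof: `K = ⌈√S / 2⌉₊`; for coprime
`a, b` in `(K, 2K]` there is a unique `n` in `[b, 2b)` with `b ∣ a n + 1`; put `ν (inl 0) = a`, `ν (inl 1) = n`, `ν (inr 0) = b`,
`ν (inr 1) = (a n + 1) / b`, all others `1`. `(a, b)` is determined by `ν`. `K² ≤ a n ≤ 8 K²`, all entries are `≤ 9 K ≤ 5 √S`. The number of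
the pairs `(a, b)` in `(K, 2K]²` which are not coprime is at most `∑_{d=2}^{2K} (K/d + 1)² ≤ (3/4) K² + 2 K (1 + log 2K) + 2K`,
so there are at least `K²/8 ≥ S/32` coprime pairs for large `K`, and at most `K² ≤ S` pairs. -/
def S_FAM : Prop := ∀ k : ℕ, 2 ≤ k → ∃ S₀ : ℝ, 1 ≤ S₀ ∧ ∀ S : ℝ, S₀ ≤ S → ∃ F : Finset (Fin k ⊕ Fin k → ℕ),
  S / 32 ≤ (F.card : ℝ) ∧ (F.card : ℝ) ≤ S ∧ ∀ ν ∈ F, (∀ i, 1 ≤ ν i ∧ (ν i : ℝ) ≤ 5 * Real.sqrt S) ∧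
    (∏ j, ν (Sum.inr j)) = (∏ j, ν (Sum.inl j)) + 1 ∧
    S / 4 ≤ ((∏ j, ν (Sum.inl j) : ℕ) : ℝ) ∧ ((∏ j, ν (Sum.inl j) : ℕ) : ℝ) ≤ 5 / 2 * S

/-- the coefficient of the character `ch ν` in the difference of two consecutive intervals -/
def gv (S : ℝ) (ν : Fin k ⊕ Fin k → ℕ) : ℂ :=
  (wt ν : ℂ) * ((∫ t in (0:ℝ)..S, Complex.exp (I * (t : ℂ) * (thv ν : ℝ))) -
    ∫ t in S..(2 * S), Complex.exp (I * (t : ℂ) * (thv ν : ℝ)))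

/-- (4) GV (25 min): the size of the coefficients. Proof: `N = ∏ inl`, `θ = thv ν = log (1 + 1/N)`, `1/(N+1) ≤ θ ≤ 1/N`. The
difference of the integrals is `-(e^(iθS) - 1)² / (iθ)`, of modulus `4 sin² (θS/2) / θ`, and `θS/2` is in `[0.19, 2]` for `S ≥ 100`, so
`sin² ≥ 0.03`; `wt ν = (N (N+1))^(-1/2)`. Upper bound: `2 S wt ν ≤ 2 S / N ≤ 8`. -/
def S_GV : Prop := ∃ c S₀ : ℝ, 0 < c ∧ 1 ≤ S₀ ∧ ∀ (k : ℕ) (S : ℝ) (ν : Fin k ⊕ Fin k → ℕ), S₀ ≤ S → (∀ i, 1 ≤ ν i) →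
  (∏ j, ν (Sum.inr j)) = (∏ j, ν (Sum.inl j)) + 1 →
  S / 4 ≤ ((∏ j, ν (Sum.inl j) : ℕ) : ℝ) → ((∏ j, ν (Sum.inl j) : ℕ) : ℝ) ≤ 5 / 2 * S →
  c ≤ ‖gv S ν‖ ∧ ‖gv S ν‖ ≤ 8 ∧ S * wt ν ≤ 4

/-- (5) P4 (40 min): fourth moment of a short sum of characters. Proof: the square of the sum is `∑_μ a(μ) ch μ`, `μ` in
`tup k (X²)`, `a(μ) = ∑_{ν ν' = μ} c ν c ν'` (pointwise products; `ch` is multiplicative in `ν` as the entries are positive).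
`TMV2` (`D0H82/SR/B.lean`, with `t_TMV` from `Pool.Agent.TH738.GF.TMV`, see `D0H82/SR/All.lean`) gives
`≤ C T^(2k) ∑_μ ‖a μ‖²`, as `X² ≤ 4T`. Cauchy: `‖a μ‖² ≤ r(μ) ∑_{ν ν' = μ} ‖c ν‖² ‖c ν'‖²`, `r(μ) ≤ ∏ i, (divisors (μ i)).card ≤ C T^ε`
(`divpow` in `D0H82/SR/C.lean`). -/
def S_P4 : Prop := ∀ (k : ℕ) (ε : ℝ), 0 < ε → ∃ C : ℝ, 0 < C ∧ ∀ (T : ℝ) (X : ℕ) (c : (Fin k ⊕ Fin k → ℕ) → ℂ),
  4 ≤ T → (X : ℝ) ^ 2 ≤ 4 * T →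
  ∫⁻ γ, ENNReal.ofReal (‖∑ ν ∈ tup k X, c ν * ch ν γ‖ ^ 4) ∂(mP (Fin k ⊕ Fin k) T) ≤
    ENNReal.ofReal (C * T ^ ε * T ^ (2 * k) * (∑ ν ∈ tup k X, ‖c ν‖ ^ 2) ^ 2)

/-- (6) IG (45 min): the swap factors have bounded integrals if the two blocks are separated. Proof: let `R` be the set of
the `j` for which `π (inl j)` is in the second block, `L` that of the `j` for which `π (inr j)` is in the first; `|R| = |L| = m ≥ 1` (count the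
preimages of the second block under `π`). With `XX`, `L` of `Pool.Agent.TH406.GS.osc : Osc XX L`, `chi_eq`:
`chi (1/2 + iu) = conj (X u)`, `chi (1/2 - iu) = X u` (`chi_mul`, modulus one), so the integrand is
`F(t) = ∏_{R} X (t + β) * ∏_{L} conj (X (t + α))`, `F' = i F (lam + e)`, `lam = ∑_R log (t + β) - ∑_L log (t + α)` real (the
`log 2π` cancel), `lam ≤ - m log (3/2)` as `t + β ≤ T/3`, `t + α ≥ T/2`, `|lam'| ≤ 10 m / T`, `‖e‖ ≤ 160 m / T` (`Osc.near`). As in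
`TH406.GS.core`: `G = -i F / lam`, `G' = F + F e / lam + i F lam' / lam²`, so
`‖∫_0^S F‖ ≤ 2 / |lam| + S (160 m / (T |lam|) + 10 m / (T lam²)) ≤ C`. -/
def S_IG : Prop := ∀ k : ℕ, ∃ C T₀ : ℝ, 0 < C ∧ 3 ≤ T₀ ∧ ∀ (T S : ℝ) (γ : Fin k ⊕ Fin k → ℝ)
  (π : Equiv.Perm (Fin k ⊕ Fin k)), T₀ ≤ T → 0 ≤ S → S ≤ T / 24 → (∃ j, (π (Sum.inr j)).isLeft = true) →
  (∀ j, T / 2 ≤ γ (Sum.inl j)) → (∀ j, T / 8 ≤ γ (Sum.inr j) ∧ γ (Sum.inr j) ≤ 7 / 24 * T) →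
  ‖∫ t in (0:ℝ)..S, GG t (fun i => (γ i : ℂ)) π‖ ≤ C

/-- the difference of two consecutive intervals -/
def Dz (S : ℝ) (γ : Fin k ⊕ Fin k → ℝ) : ℂ := (∫ t in (0:ℝ)..S, Zg γ t) - ∫ t in S..(2 * S), Zg γ t

/-- (7) LOW (40 min), from `S_COEF`, `S_FAM`, `S_GV`: a short sum `P` of characters which correlates with `Dz`. Proof: `F` from
`S_FAM`, `X = ⌊5 √S⌋₊`, `c ν = gv S ν` for `ν` in `F`, else `0`; `X² ≤ 25 S ≤ 4 T`, `F ⊆ tup k X`, entries `≤ 5 √T ≤ T^(3/4)`.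
`∫ Dz conj P = ∑_{ν ∈ F} conj (gv S ν) ∫ Dz conj (ch ν)`, and by Fubini and `S_COEF` (for `t ≤ 2S ≤ T/12`)
`∫ Dz conj (ch ν) = (dl k * T)^(2k) * gv S ν + O(2S C T^(-1/16) T^(2k) wt ν)`, with `S * wt ν ≤ 4`. So the whole is at least
`card F * T^(2k) * ((dl k)^(2k) c² - 64 C T^(-1/16))`. -/
def S_LOW : Prop := ∀ k : ℕ, 2 ≤ k → ∃ c S₀ T₀ : ℝ, 0 < c ∧ 1 ≤ S₀ ∧ 4 ≤ T₀ ∧ ∀ (T S : ℝ), T₀ ≤ T → S₀ ≤ S →
  S ≤ T / 24 → ∃ (X : ℕ) (b : (Fin k ⊕ Fin k → ℕ) → ℂ), (X : ℝ) ^ 2 ≤ 4 * T ∧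
    ∑ ν ∈ tup k X, ‖b ν‖ ^ 2 ≤ 64 * S ∧
    c * S * T ^ (2 * k) ≤ ‖∫ γ, Dz S γ * conj (∑ ν ∈ tup k X, b ν * ch ν γ) ∂(mB k T)‖

/-- (8) AN (30 min), pure measure theory. Proof: Cauchy-Schwarz. First claim: `(a V)² ≤ ∫ f² ∫ g²`. Second: with
`E = {λ ≤ f}`: `a V ≤ ∫_{Eᶜ} f g + ∫_E f g ≤ λ ∫ g + (∫ f²)^(1/2) (∫_E g²)^(1/2)`,
`∫ g ≤ (μ univ)^(1/2) (∫ g²)^(1/2) ≤ √p V`, `∫_E g² ≤ μ(E)^(1/2) (∫ g⁴)^(1/2)`; so
`(a/2)^4 V^4 ≤ (b V)² μ(E) q V`. -/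
def S_AN : Prop := ∀ (Ω : Type) [MeasurableSpace Ω] (μ : Measure Ω) (f g : Ω → ℝ) (V a b p q l : ℝ), Measurable f →
  Measurable g → (∀ x, 0 ≤ f x) → (∀ x, 0 ≤ g x) → 0 < V → 0 < a → 0 < b → 0 < p → 0 < q → 0 ≤ l →
  μ univ ≤ ENNReal.ofReal V →
  ENNReal.ofReal (a * V) ≤ ∫⁻ x, ENNReal.ofReal (f x * g x) ∂μ →
  ∫⁻ x, ENNReal.ofReal (g x ^ 2) ∂μ ≤ ENNReal.ofReal (p * V) →
  ENNReal.ofReal (a ^ 2 / p * V) ≤ ∫⁻ x, ENNReal.ofReal (f x ^ 2) ∂μ ∧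
  (∫⁻ x, ENNReal.ofReal (f x ^ 2) ∂μ ≤ ENNReal.ofReal (b * V) →
    ∫⁻ x, ENNReal.ofReal (g x ^ 4) ∂μ ≤ ENNReal.ofReal (q * V) → l * Real.sqrt p ≤ a / 2 →
    ENNReal.ofReal (a ^ 4 / (16 * b ^ 2 * q) * V) ≤ μ {x | l ≤ f x})

/-- (9) FIN (helper82): the final theorem. -/
def S_FINX : Prop := ∀ (k : ℕ) (ε : ℝ), 2 ≤ k → 0 < ε → ∃ c T₀ : ℝ, 0 < c ∧ 4 ≤ T₀ ∧ ∀ (T S : ℝ), T₀ ≤ T →
  T ^ ε ≤ S → S ≤ T / 24 →
  ENNReal.ofReal (c * S * T ^ (2 * k)) ≤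
    ∫⁻ γ in Sep k T, ENNReal.ofReal (‖Pool.Agent.TH612.GS.DD S γ‖ ^ 2) ∂(mP (Fin k ⊕ Fin k) T) ∧
  ∫⁻ γ in Sep k T, ENNReal.ofReal (‖Pool.Agent.TH612.GS.DD S γ‖ ^ 2) ∂(mP (Fin k ⊕ Fin k) T) ≤
    ENNReal.ofReal (T ^ ε * S * T ^ (2 * k)) ∧
  ENNReal.ofReal (T ^ (2 * k - ε : ℝ)) ≤
    mP (Fin k ⊕ Fin k) T {γ | (∀ i, 0 ≤ γ i ∧ γ i ≤ T) ∧ c * S ^ (1 / 2 : ℝ) ≤ ‖Pool.Agent.TH612.GS.DD S γ‖}

end

end Pool.Agent.D0H82.SX
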