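import Pool.Agent.D0H82.SX.FinWC
import Pool.Agent.D0H82.SR.All
import Pool.Agent.D0H62.SX.Mean
import Pool.Agent.D0H85.SX.Coef
import Pool.Agent.D0H35.SX.P4
import Pool.Agent.D0H22.SX.Ig
import Pool.Agent.D0H33.SX.Fam2
import Pool.Agent.D0H58.SX.Byp
import Pool.Agent.D0H58.SX.Gv2
import Pool.Agent.D0H41.SX.Low2
import Pool.Agent.D0H49.SX.Msw

set_option autoImplicit false

/-! Project SX, weights: all parts together. -/

namespace Pool.Agent.D0H82.SX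

open MeasureTheory Pool.Agent.TH612.GS Pool.Agent.D0H82.SR

theorem all_mainW : S_FINW := by
  have hMV := Pool.Agent.TH928.GS.t_MV
  have hTMV := Pool.Agent.TH738.GF.t_TMV hMV
  have hOQ := Pool.Agent.TH236.GF.t_OQ Pool.Agent.TH321.GF.t_AQ
  have hVQ := Pool.Agent.TH740.GF.t_VQ hMV
  have hREP := Pool.Agent.TH521.GS.t_REP
  have hSM := Pool.Agent.TH570.GS.t_SM
  have hONE := Pool.Agent.TH811.GS.t_ONE hMV
  have hZX : S_ZX := t_ZX hREP hOQ hSM hVQ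
  have hOD : S_OD := t_OD hTMV
  have hDC : S_DC := t_DC hTMV
  have hMS : S_MS := t_MS hZX hOD hDC t_SWS hONE t_INV
  exact t_FINW (Pool.Agent.D0H41.SX.t_LOW2 (Pool.Agent.D0H85.SX.t_COEF Pool.Agent.D0H62.SX.t_MEAN)
    Pool.Agent.D0H33.SX.t_FAM2 Pool.Agent.D0H58.SX.t_GV2) (Pool.Agent.D0H35.SX.t_P4 hTMV)
    Pool.Agent.D0H22.SX.t_IG (Pool.Agent.D0H49.SX.t_MSW Pool.Agent.D0H58.SX.t_BYP hMS t_INV)
    Pool.Agent.D0H58.SX.t_BYP t_INV hONE hTMV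

end Pool.Agent.D0H82.SX
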