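import Pool.Agent.D0H82.SX.Stm

set_option autoImplicit false

/-! Project SX, module AN. -/

namespace Pool.Agent.D0H82.SX

open MeasureTheory Set

theorem cs2 {Ω : Type} [MeasurableSpace Ω] (μ : Measure Ω) {F G : Ω → ENNReal} (hF : Measurable F)
    (hG : Measurable G) : (∫⁻ x, F x * G x ∂μ) ^ 2 ≤ (∫⁻ x, F x ^ 2 ∂μ) * ∫⁻ x, G x ^ 2 ∂μ := by
  have h := ENNReal.lintegral_mul_le_Lp_mul_Lq μ Real.HolderConjugate.two_two hF.aemeasurable hG.aemeasurable
  have e : ∀ A : ENNReal, A ^ (2 : ℝ) = A ^ 2 := fun A => by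
    rw [← ENNReal.rpow_natCast]; norm_num
  simp only [Pi.mul_apply, e] at h
  refine (pow_le_pow_left' h 2).trans (le_of_eq ?_)
  rw [mul_pow, ← ENNReal.rpow_natCast, ← ENNReal.rpow_natCast, ← ENNReal.rpow_mul, ← ENNReal.rpow_mul]
  norm_num

theorem cancel {A B : ENNReal} {x y : ℝ} (hx : 0 ≤ x) (hy : 0 < y)
    (h : ENNReal.ofReal (x * y) ≤ A * B) (hB : B ≤ ENNReal.ofReal y) : ENNReal.ofReal x ≤ A := by
  have h1 : ENNReal.ofReal x * ENNReal.ofReal y ≤ A * ENNReal.ofReal y := by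
    rw [← ENNReal.ofReal_mul hx]
    exact h.trans (mul_le_mul' le_rfl hB)
  exact (ENNReal.mul_le_mul_iff_left (ENNReal.ofReal_pos.2 hy).ne' ENNReal.ofReal_ne_top).1 h1

theorem t_AN : S_AN := by
  intro Ω _ μ f g V a b p q l hf hg hf0 hg0 hV ha hb hp hq hl hμ hfg hg2
  set F : Ω → ENNReal := fun x => ENNReal.ofReal (f x) with hF
  set G : Ω → ENNReal := fun x => ENNReal.ofReal (g x) with hG
  have hFm : Measurable F := hf.ennreal_ofReal
  have hGm : Measurable G := hg.ennreal_ofReal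
  have e1 : ∀ x, ENNReal.ofReal (f x * g x) = F x * G x := fun x => ENNReal.ofReal_mul (hf0 x)
  have e2 : ∀ x, ENNReal.ofReal (f x ^ 2) = F x ^ 2 := fun x => ENNReal.ofReal_pow (hf0 x) 2
  have e3 : ∀ x, ENNReal.ofReal (g x ^ 2) = G x ^ 2 := fun x => ENNReal.ofReal_pow (hg0 x) 2
  have e4 : ∀ x, ENNReal.ofReal (g x ^ 4) = (G x ^ 2) ^ 2 := fun x => by
    rw [ENNReal.ofReal_pow (hg0 x) 4, ← pow_mul]
  simp only [e1, e2, e3, e4] at *
  constructor
  · refine cancel (y := p * V) (by positivity) (by positivity) ?_ hg2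
    refine le_trans (le_of_eq ?_) ((pow_le_pow_left' hfg 2).trans (cs2 μ hFm hGm))
    rw [← ENNReal.ofReal_pow (by positivity)]
    congr 1
    field_simp
  · intro hf2 hg4 hlp
    set E : Set Ω := {x | l ≤ f x} with hE
    have hEm : MeasurableSet E := measurableSet_le measurable_const hf
    -- the integral of `G`
    have h1 : ∫⁻ x, G x ∂μ ≤ ENNReal.ofReal (Real.sqrt p * V) := by
      have h2 := cs2 μ hGm (measurable_const (a := (1 : ENNReal)))
      simp only [mul_one, one_pow, lintegral_const, one_mul] at h2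
      have h3 : (∫⁻ x, G x ∂μ) ^ 2 ≤ ENNReal.ofReal (Real.sqrt p * V) ^ 2 := by
        refine h2.trans ((mul_le_mul' hg2 hμ).trans (le_of_eq ?_))
        rw [← ENNReal.ofReal_mul (by positivity), ← ENNReal.ofReal_pow (by positivity)]
        congr 1
        rw [mul_pow, Real.sq_sqrt hp.le]
        ring
      exact (ENNReal.pow_le_pow_left_iff (by norm_num)).1 h3
    set J : ENNReal := ∫⁻ x in E, F x * G x ∂μ with hJ
    have h2 : ∫⁻ x, F x * G x ∂μ ≤ J + ENNReal.ofReal (a / 2 * V) := by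
      rw [← lintegral_add_compl _ hEm]
      refine add_le_add le_rfl ?_
      calc ∫⁻ x in Eᶜ, F x * G x ∂μ ≤ ∫⁻ x in Eᶜ, ENNReal.ofReal l * G x ∂μ := by
            refine setLIntegral_mono (hGm.const_mul _) fun x hx => ?_
            refine mul_le_mul' (ENNReal.ofReal_le_ofReal ?_) le_rfl
            have : ¬ l ≤ f x := hx
            linarith
        _ ≤ ∫⁻ x, ENNReal.ofReal l * G x ∂μ := setLIntegral_le_lintegral _ _
        _ = ENNReal.ofReal l * ∫⁻ x, G x ∂μ := lintegral_const_mul _ hGm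
        _ ≤ ENNReal.ofReal l * ENNReal.ofReal (Real.sqrt p * V) := mul_le_mul' le_rfl h1
        _ = ENNReal.ofReal (l * Real.sqrt p * V) := by
            rw [← ENNReal.ofReal_mul hl]
            congr 1
            ring
        _ ≤ ENNReal.ofReal (a / 2 * V) :=
            ENNReal.ofReal_le_ofReal (mul_le_mul_of_nonneg_right hlp hV.le)
    have h3 : ENNReal.ofReal (a / 2 * V) ≤ J := by
      have h4 : ENNReal.ofReal (a / 2 * V) + ENNReal.ofReal (a / 2 * V) ≤ J + ENNReal.ofReal (a / 2 * V) := by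
        refine le_trans (le_of_eq ?_) (hfg.trans h2)
        rw [← ENNReal.ofReal_add (by positivity) (by positivity)]
        congr 1
        ring
      exact (ENNReal.add_le_add_iff_right ENNReal.ofReal_ne_top).1 h4
    have h5 : J ^ 2 ≤ ENNReal.ofReal (b * V) * ∫⁻ x in E, G x ^ 2 ∂μ := by
      refine (cs2 (μ.restrict E) hFm hGm).trans (mul_le_mul' ?_ le_rfl)
      exact (setLIntegral_le_lintegral _ _).trans hf2
    have h6 : (∫⁻ x in E, G x ^ 2 ∂μ) ^ 2 ≤ ENNReal.ofReal (q * V) * μ E := by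
      have h7 := cs2 (μ.restrict E) (hGm.pow_const 2) (measurable_const (a := (1 : ENNReal)))
      simp only [mul_one, one_pow, lintegral_const, one_mul, Measure.restrict_apply_univ] at h7
      refine h7.trans (mul_le_mul' ?_ le_rfl)
      exact (setLIntegral_le_lintegral _ _).trans hg4
    have h8 : ENNReal.ofReal ((a / 2 * V) ^ 4) ≤ μ E * ENNReal.ofReal ((b * V) ^ 2 * (q * V)) := by
      calc ENNReal.ofReal ((a / 2 * V) ^ 4) = (ENNReal.ofReal (a / 2 * V) ^ 2) ^ 2 := by
            rw [ENNReal.ofReal_pow (by positivity), ← pow_mul]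
        _ ≤ (J ^ 2) ^ 2 := pow_le_pow_left' (pow_le_pow_left' h3 2) 2
        _ ≤ (ENNReal.ofReal (b * V) * ∫⁻ x in E, G x ^ 2 ∂μ) ^ 2 := pow_le_pow_left' h5 2
        _ = ENNReal.ofReal (b * V) ^ 2 * (∫⁻ x in E, G x ^ 2 ∂μ) ^ 2 := mul_pow _ _ _
        _ ≤ ENNReal.ofReal (b * V) ^ 2 * (ENNReal.ofReal (q * V) * μ E) := mul_le_mul' le_rfl h6
        _ = μ E * ENNReal.ofReal ((b * V) ^ 2 * (q * V)) := by
            rw [ENNReal.ofReal_mul (p := (b * V) ^ 2) (by positivity), ENNReal.ofReal_pow (by positivity)]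
            ring
    refine cancel (y := (b * V) ^ 2 * (q * V)) (by positivity) (by positivity) (le_trans (le_of_eq ?_) h8) le_rfl
    congr 1
    field_simp
    ring

end Pool.Agent.D0H82.SX
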