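import Pool.Agent.D0H82.SX.Stm
import Pool.Agent.D0H82.SR.P

set_option autoImplicit false

/-! Project SX: geometry of the box, and the pointwise comparison. -/

namespace Pool.Agent.D0H82.SX

open Complex Filter Topology MeasureTheory Set
open Pool.Agent.TH612.CF
open Pool.Agent.TH612.GS
open Pool.Agent.D0H82.SR

noncomputable section

variable {k : ℕ}

/-- the box -/
def Bs (k : ℕ) (T : ℝ) : Set (Fin k ⊕ Fin k → ℝ) := univ.pi fun i => Icc (ul k i * T) ((ul k i + dl k) * T)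

lemma mB_eq (k : ℕ) (T : ℝ) : mB k T = (volume : Measure (Fin k ⊕ Fin k → ℝ)).restrict (Bs k T) := by
  unfold mB Bs
  rw [volume_pi, Measure.restrict_pi_pi]

lemma Bs_meas (k : ℕ) (T : ℝ) : MeasurableSet (Bs k T) := MeasurableSet.univ_pi fun i => measurableSet_Icc

lemma dl_pos (k : ℕ) : 0 < dl k := by unfold dl; positivity

lemma dl_le (k : ℕ) : dl k ≤ 1 / 16 := by
  unfold dl
  rw [div_le_div_iff₀ (by positivity) (by norm_num)]
  have : (0:ℝ) ≤ k := by positivity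
  linarith

lemma dl_mul (k : ℕ) : dl k * (k + 1) = 1 / 16 := by
  unfold dl
  have : ((k : ℝ) + 1) ≠ 0 := by positivity
  field_simp

lemma j_dl (j : Fin k) : (2 * ((j : ℕ) : ℝ) + 1) * dl k ≤ 1 / 8 := by
  have h1 : ((j : ℕ) : ℝ) + 1 ≤ k := by exact_mod_cast j.2
  have h2 := dl_pos k
  have h3 := dl_mul k
  nlinarith

lemma ul_inl (j : Fin k) : 1 / 2 ≤ ul k (Sum.inl j) ∧ ul k (Sum.inl j) + dl k ≤ 5 / 8 := by
  have h1 := j_dl j
  have h2 := dl_pos k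
  have h3 : (0:ℝ) ≤ ((j : ℕ) : ℝ) := by positivity
  unfold ul
  simp only [Sum.elim_inl]
  constructor <;> nlinarith

lemma ul_inr (j : Fin k) : 1 / 8 ≤ ul k (Sum.inr j) ∧ ul k (Sum.inr j) + dl k ≤ 1 / 4 := by
  have h1 := j_dl j
  have h2 := dl_pos k
  have h3 : (0:ℝ) ≤ ((j : ℕ) : ℝ) := by positivity
  unfold ul
  simp only [Sum.elim_inr]
  constructor <;> nlinarith

lemma sep_aux {T x y u v d : ℝ} (hT : 0 ≤ T) (h : u + 2 * d ≤ v) (hx2 : x ≤ (u + d) * T) (hy1 : v * T ≤ y) :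
    d * T ≤ |x - y| := by
  rw [abs_sub_comm]
  refine le_trans ?_ (le_abs_self _)
  nlinarith

lemma ul_ne {p q : Fin k ⊕ Fin k} (h : p ≠ q) : ul k p + 2 * dl k ≤ ul k q ∨ ul k q + 2 * dl k ≤ ul k p := by
  have h2 := dl_pos k
  have h3 := dl_le k
  have key : ∀ i j : Fin k, i ≠ j → (2 * ((i : ℕ) : ℝ) * dl k + 2 * dl k ≤ 2 * ((j : ℕ) : ℝ) * dl k) ∨
      (2 * ((j : ℕ) : ℝ) * dl k + 2 * dl k ≤ 2 * ((i : ℕ) : ℝ) * dl k) := by
    intro i j hij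
    rcases lt_or_gt_of_ne (fun h => hij (Fin.ext h) : (i : ℕ) ≠ j) with h | h
    · left
      have : ((i : ℕ) : ℝ) + 1 ≤ ((j : ℕ) : ℝ) := by exact_mod_cast h
      nlinarith
    · right
      have : ((j : ℕ) : ℝ) + 1 ≤ ((i : ℕ) : ℝ) := by exact_mod_cast h
      nlinarith
  rcases p with i | i <;> rcases q with j | j
  · have := key i j (fun e => h (by rw [e]))
    unfold ul
    simp only [Sum.elim_inl]
    rcases this with h | h
    · left; linarith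
    · right; linarith
  · right
    have a := ul_inl i
    have b := ul_inr j
    linarith [a.1, b.2]
  · left
    have a := ul_inr i
    have b := ul_inl j
    linarith [b.1, a.2]
  · have := key i j (fun e => h (by rw [e]))
    unfold ul
    simp only [Sum.elim_inr]
    rcases this with h | h
    · left; linarith
    · right; linarith

lemma Bs_sep {T A : ℝ} (hT : 0 ≤ T) (hT2 : T ^ (1 / 2 : ℝ) ≤ dl k * T) (hA : 0 ≤ A) (hA2 : A ≤ T / 24)
    {γ : Fin k ⊕ Fin k → ℝ} (hγ : γ ∈ Bs k T) : (fun i => γ i + A) ∈ Sep k T := by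
  have hg : ∀ i, ul k i * T ≤ γ i ∧ γ i ≤ (ul k i + dl k) * T := fun i => hγ i (mem_univ i)
  refine ⟨fun i => ?_, fun p q hpq => ?_⟩
  · have h := hg i
    rcases i with j | j
    · have a := ul_inl j
      constructor <;> nlinarith [h.1, h.2, a.1, a.2]
    · have a := ul_inr j
      constructor <;> nlinarith [h.1, h.2, a.1, a.2]
  · rw [add_sub_add_right_eq_sub]
    refine hT2.trans ?_
    rcases ul_ne hpq with h | h
    · exact sep_aux hT h (hg p).2 (hg q).1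
    · rw [abs_sub_comm]
      exact sep_aux hT h (hg q).2 (hg p).1

lemma Bs_sub {T : ℝ} (hT : 0 ≤ T) (hT2 : T ^ (1 / 2 : ℝ) ≤ dl k * T) : Bs k T ⊆ Sep k T := by
  intro γ hγ
  have := Bs_sep (A := 0) hT hT2 le_rfl (by positivity) hγ
  simpa using this

lemma Bs_inl {T : ℝ} (hT : 0 ≤ T) {γ : Fin k ⊕ Fin k → ℝ} (hγ : γ ∈ Bs k T) (j : Fin k) :
    T / 2 ≤ γ (Sum.inl j) := by
  have h := (hγ (Sum.inl j) (mem_univ _)).1
  have a := ul_inl j
  nlinarith [a.1]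

lemma Bs_inr {T : ℝ} (hT : 0 ≤ T) {γ : Fin k ⊕ Fin k → ℝ} (hγ : γ ∈ Bs k T) (j : Fin k) :
    T / 8 ≤ γ (Sum.inr j) ∧ γ (Sum.inr j) ≤ T / 4 := by
  have h := hγ (Sum.inr j) (mem_univ _)
  have a := ul_inr j
  constructor <;> nlinarith [h.1, h.2, a.1, a.2]

/-- the comparison -/
lemma Dz_eq (hINV : S_INV) (S : ℝ) (γ : Fin k ⊕ Fin k → ℝ) : Dz S γ =
    Pool.Agent.TH612.GS.DD S γ - Pool.Agent.TH612.GS.DD S (fun i => γ i + S) +
      ((Nat.factorial k : ℂ) ^ 2)⁻¹ * ∑ π ∈ (Pk k)ᶜ, (IG S γ π - IG S (fun i => γ i + S) π) * zp γ π := by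
  have h1 := DD_eq hINV S γ
  have h2 := DD_eq hINV S (fun i => γ i + S)
  have e1 : ∫ t in (0:ℝ)..S, Zg (fun i => γ i + S) t = ∫ t in S..(2 * S), Zg γ t := by
    have := intervalIntegral.integral_comp_add_right (a := 0) (b := S) (fun t : ℝ => Zg γ t) S
    rw [zero_add, ← two_mul] at this
    rw [← this]
    exact intervalIntegral.integral_congr fun t _ => (Zg_trans γ S t).symm
  have e2 : zr (fun i => γ i + S) = zr γ := zp_trans γ S 1
  have e3 : ∑ π ∈ (Pk k)ᶜ, IG S (fun i => γ i + S) π * zp (fun i => γ i + S) π =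
      ∑ π ∈ (Pk k)ᶜ, IG S (fun i => γ i + S) π * zp γ π :=
    Finset.sum_congr rfl fun π _ => by rw [zp_trans]
  rw [e1, e2, e3] at h2
  rw [h1, h2]
  unfold Dz
  simp only [sub_mul, Finset.sum_sub_distrib]
  ring

lemma Dz_le (hINV : S_INV) {T S C6 C5 : ℝ} (hT : 3 ≤ T) (hS : 0 ≤ S) (hST : S ≤ T / 24)
    (hT2 : T ^ (1 / 2 : ℝ) ≤ dl k * T) (hC5 : 0 < C5) (hC6 : 0 < C6)
    (h5 : ∀ v : ℝ, 1 ≤ |v| → |v| ≤ T → ‖riemannZeta (1 + I * v)‖ ≤ C5 * Real.log T)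
    (h6 : ∀ (γ : Fin k ⊕ Fin k → ℝ) (π : Equiv.Perm (Fin k ⊕ Fin k)), (∃ j, (π (Sum.inr j)).isLeft = true) →
      (∀ j, T / 2 ≤ γ (Sum.inl j)) → (∀ j, T / 8 ≤ γ (Sum.inr j) ∧ γ (Sum.inr j) ≤ 7 / 24 * T) →
      ‖∫ t in (0:ℝ)..S, GG t (fun i => (γ i : ℂ)) π‖ ≤ C6)
    {γ : Fin k ⊕ Fin k → ℝ} (hγ : γ ∈ Bs k T) :
    ‖Dz S γ‖ ≤ ‖Pool.Agent.TH612.GS.DD S γ‖ + ‖Pool.Agent.TH612.GS.DD S (fun i => γ i + S)‖ +
      ((Pk k)ᶜ.card : ℝ) * (2 * C6 * ZB k C5 T) := by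
  have hT0 : 0 ≤ T := by linarith
  have hl : ∀ π ∈ (Pk k)ᶜ, ∃ j, (π (Sum.inr j)).isLeft = true := by
    intro π hπ
    rw [Finset.mem_compl] at hπ
    unfold Pk at hπ
    simp only [Finset.mem_filter, Finset.mem_univ, true_and, not_forall, Bool.not_eq_false] at hπ
    exact hπ
  have hb : ∀ π ∈ (Pk k)ᶜ, ‖(IG S γ π - IG S (fun i => γ i + S) π) * zp γ π‖ ≤ 2 * C6 * ZB k C5 T := by
    intro π hπ
    rw [norm_mul]
    have g1 : ‖IG S γ π‖ ≤ C6 := h6 γ π (hl π hπ) (Bs_inl hT0 hγ) fun j =>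
      ⟨(Bs_inr hT0 hγ j).1, by linarith [(Bs_inr hT0 hγ j).2]⟩
    have g2 : ‖IG S (fun i => γ i + S) π‖ ≤ C6 := h6 (fun i => γ i + S) π (hl π hπ)
      (fun j => by linarith [Bs_inl hT0 hγ j]) fun j =>
      ⟨by linarith [(Bs_inr hT0 hγ j).1], by linarith [(Bs_inr hT0 hγ j).2]⟩
    refine mul_le_mul ?_ (zp_bd hT hC5 h5 (Bs_sub hT0 hT2 hγ) π) (norm_nonneg _) (by positivity)
    refine (norm_sub_le _ _).trans ?_
    linarith
  rw [Dz_eq hINV]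
  refine (norm_add_le _ _).trans (add_le_add (norm_sub_le _ _) ?_)
  rw [norm_mul]
  calc ‖((Nat.factorial k : ℂ) ^ 2)⁻¹‖ * ‖∑ π ∈ (Pk k)ᶜ, (IG S γ π - IG S (fun i => γ i + S) π) * zp γ π‖
      ≤ 1 * ∑ π ∈ (Pk k)ᶜ, 2 * C6 * ZB k C5 T :=
        mul_le_mul inv_le_one ((norm_sum_le _ _).trans (Finset.sum_le_sum hb)) (norm_nonneg _) (by norm_num)
    _ = _ := by rw [one_mul, Finset.sum_const, nsmul_eq_mul]

end

end Pool.Agent.D0H82.SX
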