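import Pool.Agent.D0H82.SX.FinA
import Pool.Agent.D0H82.SX.An
import Pool.Agent.D0H82.SR.B
import Pool.Agent.D0H82.SR.C
import Pool.Agent.D0H82.SR.J

set_option autoImplicit false

/-! Project SX: tools for the assembly. -/

namespace Pool.Agent.D0H82.SX

open Complex Filter Topology MeasureTheory Set
open scoped ComplexConjugate
open Pool.Agent.TH612.CF
open Pool.Agent.TH612.GS
open Pool.Agent.D0H82.SR

noncomputable section

variable {k : ℕ}

lemma ev_le (A : ℝ) {B x y : ℝ} (hB : 0 < B) (hxy : x < y) : ∀ᶠ T : ℝ in atTop, A * T ^ x ≤ B * T ^ y := by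
  have h1 := tendsto_rpow_atTop (sub_pos.2 hxy)
  filter_upwards [h1.eventually_ge_atTop (A / B), eventually_gt_atTop 0] with T h hT
  have e : T ^ y = T ^ x * T ^ (y - x) := by
    rw [← Real.rpow_add hT]; congr 1; ring
  rw [e]
  have h2 : A ≤ B * T ^ (y - x) := by
    rw [div_le_iff₀ hB] at h
    linarith
  have h3 : 0 < T ^ x := Real.rpow_pos_of_pos hT x
  nlinarith

lemma mB_le {T : ℝ} (hT : 0 ≤ T) : mB k T ≤ mP (Fin k ⊕ Fin k) T := by
  rw [mB_eq, mP_eq]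
  refine Measure.restrict_mono ?_ le_rfl
  intro γ hγ i _
  have h := hγ i (mem_univ i)
  rcases i with j | j
  · have a := ul_inl j
    constructor <;> nlinarith [h.1, h.2, a.1, a.2]
  · have a := ul_inr j
    constructor <;> nlinarith [h.1, h.2, a.1, a.2]

lemma Dz_cont (S : ℝ) : Continuous fun γ : Fin k ⊕ Fin k → ℝ => Dz S γ := by
  have h1 : Continuous fun γ : Fin k ⊕ Fin k → ℝ => ∫ t in (0:ℝ)..S, Zg γ t := by
    simp only [Zg_fz]
    exact intprod_cont z_cont S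
  have e : (fun γ : Fin k ⊕ Fin k → ℝ => Dz S γ) = fun γ => (∫ t in (0:ℝ)..S, Zg γ t) -
      ∫ t in (0:ℝ)..S, Zg (fun i => γ i + S) t := by
    funext γ
    unfold Dz
    congr 1
    have := intervalIntegral.integral_comp_add_right (a := 0) (b := S) (fun t : ℝ => Zg γ t) S
    rw [zero_add, ← two_mul] at this
    rw [← this]
    exact intervalIntegral.integral_congr fun t _ => Zg_trans γ S t
  rw [e]
  exact h1.sub (h1.comp (f := fun γ : Fin k ⊕ Fin k → ℝ => fun i => γ i + S) (by fun_prop))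

/-- translation -/
lemma trans_le' {T A : ℝ} (hT : 0 ≤ T) (hT2 : T ^ (1 / 2 : ℝ) ≤ dl k * T) (hA : 0 ≤ A) (hA2 : A ≤ T / 24)
    (F : (Fin k ⊕ Fin k → ℝ) → ENNReal) :
    ∫⁻ γ in Bs k T, F (fun i => γ i + A) ≤ ∫⁻ γ in Sep k T, F γ := by
  rw [← lintegral_indicator (Bs_meas k T), ← lintegral_indicator (Sep_meas k T),
    ← lintegral_add_right_eq_self ((Sep k T).indicator F) (fun _ => A)]
  refine lintegral_mono fun γ => ?_
  by_cases h : γ ∈ Bs k T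
  · rw [indicator_of_mem h]
    have h2 : (γ + fun _ => A) ∈ Sep k T := Bs_sep hT hT2 hA hA2 h
    rw [indicator_of_mem h2]
    rfl
  · rw [indicator_of_notMem h]
    exact zero_le

lemma three_sq (a b c : ℝ) : (a + b + c) ^ 2 ≤ 3 * a ^ 2 + (3 * b ^ 2 + 3 * c ^ 2) := by
  nlinarith [sq_nonneg (a - b), sq_nonneg (b - c), sq_nonneg (a - c)]

/-- the mean square of `Dz` against that of `DD` -/
lemma Dz_ms (hINV : S_INV) {T S W : ℝ} (hT : 1 ≤ T) (hT2 : T ^ (1 / 2 : ℝ) ≤ dl k * T) (hS : 0 ≤ S)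
    (hS2 : S ≤ T / 24)
    (hW : ∀ γ ∈ Bs k T, ‖Dz S γ‖ ≤ ‖Pool.Agent.TH612.GS.DD S γ‖ +
      ‖Pool.Agent.TH612.GS.DD S (fun i => γ i + S)‖ + W) :
    ∫⁻ γ, ENNReal.ofReal (‖Dz S γ‖ ^ 2) ∂(mB k T) ≤
      6 * (∫⁻ γ in Sep k T, ENNReal.ofReal (‖Pool.Agent.TH612.GS.DD S γ‖ ^ 2) ∂(mP (Fin k ⊕ Fin k) T)) +
        ENNReal.ofReal (3 * W ^ 2 * T ^ (2 * k)) := by
  have hT0 : 0 ≤ T := by linarith
  set M : ENNReal := ∫⁻ γ in Sep k T, ENNReal.ofReal (‖Pool.Agent.TH612.GS.DD S γ‖ ^ 2)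
    ∂(mP (Fin k ⊕ Fin k) T) with hM
  rw [restr_Sep] at hM
  have hun : (volume : Measure (Fin k ⊕ Fin k → ℝ)) (Bs k T) ≤ ENNReal.ofReal (T ^ (2 * k)) := by
    have h1 : mB k T univ ≤ mP (Fin k ⊕ Fin k) T univ := mB_le hT0 univ
    rw [mP_univ2 k hT0, mB_eq, Measure.restrict_apply_univ] at h1
    exact h1
  rw [mB_eq]
  have h1 : ∀ γ ∈ Bs k T, ENNReal.ofReal (‖Dz S γ‖ ^ 2) ≤
      3 * ENNReal.ofReal (‖Pool.Agent.TH612.GS.DD S γ‖ ^ 2) +
      (3 * ENNReal.ofReal (‖Pool.Agent.TH612.GS.DD S (fun i => γ i + S)‖ ^ 2) + ENNReal.ofReal (3 * W ^ 2)) := by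
    intro γ hγ
    have e3 : (3 : ENNReal) = ENNReal.ofReal 3 := by simp
    rw [e3, ← ENNReal.ofReal_mul (by norm_num), ← ENNReal.ofReal_mul (by norm_num),
      ← ENNReal.ofReal_add (by positivity) (by positivity), ← ENNReal.ofReal_add (by positivity) (by positivity)]
    refine ENNReal.ofReal_le_ofReal ?_
    exact (pow_le_pow_left₀ (norm_nonneg _) (hW γ hγ) 2).trans (three_sq _ _ _)
  have hDc := DD_contOn (k := k) hINV hT S
  have hm1 : AEMeasurable (fun γ : Fin k ⊕ Fin k → ℝ => 3 * ENNReal.ofReal (‖Pool.Agent.TH612.GS.DD S γ‖ ^ 2))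
      (volume.restrict (Bs k T)) := by
    refine AEMeasurable.const_mul ?_ _
    refine AEMeasurable.ennreal_ofReal ?_
    exact (((hDc.mono (Bs_sub hT0 hT2)).norm).pow 2).aemeasurable (Bs_meas k T)
  calc ∫⁻ γ in Bs k T, ENNReal.ofReal (‖Dz S γ‖ ^ 2)
      ≤ ∫⁻ γ in Bs k T, (3 * ENNReal.ofReal (‖Pool.Agent.TH612.GS.DD S γ‖ ^ 2) +
        (3 * ENNReal.ofReal (‖Pool.Agent.TH612.GS.DD S (fun i => γ i + S)‖ ^ 2) + ENNReal.ofReal (3 * W ^ 2))) :=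
        setLIntegral_mono' (Bs_meas k T) h1
    _ = (∫⁻ γ in Bs k T, 3 * ENNReal.ofReal (‖Pool.Agent.TH612.GS.DD S γ‖ ^ 2)) +
        ((∫⁻ γ in Bs k T, 3 * ENNReal.ofReal (‖Pool.Agent.TH612.GS.DD S (fun i => γ i + S)‖ ^ 2)) +
          ENNReal.ofReal (3 * W ^ 2) * volume (Bs k T)) := by
        rw [lintegral_add_left' hm1, lintegral_add_right' _ aemeasurable_const, lintegral_const,
          Measure.restrict_apply_univ]
    _ ≤ 3 * M + (3 * M + ENNReal.ofReal (3 * W ^ 2 * T ^ (2 * k))) := by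
        refine add_le_add ?_ (add_le_add ?_ ?_)
        · rw [lintegral_const_mul' _ _ (by norm_num), hM]
          exact mul_le_mul' le_rfl (lintegral_mono_set (Bs_sub hT0 hT2))
        · rw [lintegral_const_mul' _ _ (by norm_num), hM]
          exact mul_le_mul' le_rfl (trans_le' hT0 hT2 hS hS2
            (fun γ => ENNReal.ofReal (‖Pool.Agent.TH612.GS.DD S γ‖ ^ 2)))
        · rw [ENNReal.ofReal_mul (p := 3 * W ^ 2) (by positivity)]
          exact mul_le_mul' le_rfl hun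
    _ = 6 * M + ENNReal.ofReal (3 * W ^ 2 * T ^ (2 * k)) := by
        rw [← add_assoc, ← add_mul]
        norm_num

/-- from the large values of `Dz` to those of `DD` -/
lemma meas_le {T S W l : ℝ} (hT : 0 ≤ T) (hT2 : T ^ (1 / 2 : ℝ) ≤ dl k * T) (hS : 0 ≤ S) (hS2 : S ≤ T / 24)
    (hWl : W ≤ l / 2)
    (hW : ∀ γ ∈ Bs k T, ‖Dz S γ‖ ≤ ‖Pool.Agent.TH612.GS.DD S γ‖ +
      ‖Pool.Agent.TH612.GS.DD S (fun i => γ i + S)‖ + W) :
    mB k T {γ | l ≤ ‖Dz S γ‖} ≤ 2 * (volume : Measure (Fin k ⊕ Fin k → ℝ))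
      {γ | γ ∈ Sep k T ∧ l / 4 ≤ ‖Pool.Agent.TH612.GS.DD S γ‖} := by
  set A : Set (Fin k ⊕ Fin k → ℝ) := {γ | γ ∈ Sep k T ∧ l / 4 ≤ ‖Pool.Agent.TH612.GS.DD S γ‖} with hA
  have hE : MeasurableSet {γ : Fin k ⊕ Fin k → ℝ | l ≤ ‖Dz S γ‖} :=
    (isClosed_le continuous_const (Dz_cont S).norm).measurableSet
  rw [mB_eq, Measure.restrict_apply hE]
  have hsub : {γ : Fin k ⊕ Fin k → ℝ | l ≤ ‖Dz S γ‖} ∩ Bs k T ⊆
      A ∪ (fun γ : Fin k ⊕ Fin k → ℝ => γ + fun _ => S) ⁻¹' A := by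
    rintro γ ⟨h1, h2⟩
    have h3 : l ≤ ‖Dz S γ‖ := h1
    have h4 := hW γ h2
    by_cases h5 : l / 4 ≤ ‖Pool.Agent.TH612.GS.DD S γ‖
    · exact Or.inl ⟨Bs_sub hT hT2 h2, h5⟩
    · refine Or.inr ⟨Bs_sep hT hT2 hS hS2 h2, ?_⟩
      push Not at h5
      have h6 : l / 4 ≤ ‖Pool.Agent.TH612.GS.DD S (fun i => γ i + S)‖ := by linarith
      exact h6
  refine (measure_mono hsub).trans ((measure_union_le _ _).trans (le_of_eq ?_))
  rw [measure_preimage_add_right, two_mul]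

end

end Pool.Agent.D0H82.SX
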