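import Pool.Agent.D0H82.SX.FinB

set_option autoImplicit false

/-! Project SX: assembly. -/

namespace Pool.Agent.D0H82.SX

open Complex Filter Topology MeasureTheory Set
open scoped ComplexConjugate
open Pool.Agent.TH612.CF
open Pool.Agent.TH612.GS
open Pool.Agent.D0H82.SR

noncomputable section

theorem t_FINX (hLOW : S_LOW) (hP4 : S_P4) (hIG : S_IG) (hMS : S_MS) (hINV : S_INV) (hONE : S_ONE)
    (hTMV : S_TMV) : S_FINX := by
  intro k ε hk hε
  set e : ℝ := ε / 16 with he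
  have he0 : 0 < e := by positivity
  obtain ⟨c1, S1, T1, hc1, hS1, hT1, h1⟩ := hLOW k hk
  obtain ⟨C4, hC4, h4⟩ := hP4 k e he0
  obtain ⟨C6, T6, hC6, hT6, h6⟩ := hIG k
  obtain ⟨C3, T3, hC3, hT3, h3⟩ := hMS k e he0
  obtain ⟨C5, T5, hC5, hT5, h5⟩ := hONE
  obtain ⟨C2, hC2, h2⟩ := TMV2 hTMV k
  obtain ⟨C7, hC7, h7⟩ := logpow (k ^ 2) he0
  have hBF : 0 ≤ BF k (1 / 8) := (Real.exp_pos _).le
  set Cw : ℝ := ((Pk k)ᶜ.card : ℝ) * (2 * C6 * (BF k (1 / 8) * (C5 ^ (k ^ 2) * C7))) with hCw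
  have hCw0 : 0 ≤ Cw := by positivity
  set c7 : ℝ := c1 ^ 2 / (64 * C2) with hc7
  have hc70 : 0 < c7 := by positivity
  have hs2 : 0 < Real.sqrt C2 := Real.sqrt_pos.2 hC2
  set c8 : ℝ := c1 / (16 * Real.sqrt C2) with hc8
  have hc80 : 0 < c8 := by positivity
  have E1 := ev_le (3 * Cw ^ 2) (B := c7 / 2) (x := 2 * e) (y := ε) (by positivity) (by rw [he]; linarith)
  have E2 := ev_le Cw (B := c8 / 2) (x := e) (y := ε / 2) (by positivity) (by rw [he]; linarith)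
  have E3 := ev_le (6 * C3 + 3 * Cw ^ 2) (B := 1) (x := 2 * e) (y := ε / 4) one_pos (by rw [he]; linarith)
  have E4 := ev_le (4096 * C4) (B := 1) (x := e) (y := ε / 4) one_pos (by rw [he]; linarith)
  have E5 := ev_le 2 (B := c1 ^ 4 / 16) (x := 0) (y := ε / 4) (by positivity) (by linarith)
  have E6 := ev_le C3 (B := 1) (x := e) (y := ε) one_pos (by rw [he]; linarith)
  have E7 := ev_le 1 (B := dl k) (x := 1 / 2) (y := 1) (dl_pos k) (by norm_num)
  have E8 := ev_le S1 (B := 1) (x := 0) (y := ε) one_pos hε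
  obtain ⟨T0, hT0⟩ := Filter.eventually_atTop.1 (E1.and (E2.and (E3.and (E4.and (E5.and (E6.and (E7.and E8)))))))
  refine ⟨min (c7 / 12) (c8 / 4), max 4 (max T0 (max T1 (max T3 (max T5 T6)))), by positivity,
    le_max_left _ _, fun T S hT hTS hST => ?_⟩
  have hT4 : 4 ≤ T := (le_max_left _ _).trans hT
  have hr := (le_max_right _ _).trans hT
  have hTT0 : T0 ≤ T := (le_max_left _ _).trans hr
  have hr1 := (le_max_right _ _).trans hr
  have hTT1 : T1 ≤ T := (le_max_left _ _).trans hr1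
  have hr2 := (le_max_right _ _).trans hr1
  have hTT3 : T3 ≤ T := (le_max_left _ _).trans hr2
  have hr3 := (le_max_right _ _).trans hr2
  have hTT5 : T5 ≤ T := (le_max_left _ _).trans hr3
  have hTT6 : T6 ≤ T := (le_max_right _ _).trans hr3
  obtain ⟨F1, F2, F3, F4, F5, F6, F7, F8⟩ := hT0 T hTT0
  have hTp : 0 < T := lt_of_lt_of_le (by norm_num) hT4
  have hT1' : 1 ≤ T := le_trans (by norm_num) hT4
  rw [Real.rpow_zero, mul_one, one_mul] at F8
  rw [Real.rpow_zero, mul_one] at F5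
  rw [Real.rpow_one, one_mul] at F7
  rw [one_mul] at F3 F4 F6
  have hSS1 : S1 ≤ S := F8.trans hTS
  have hS1' : 1 ≤ S := hS1.trans hSS1
  have hSp : 0 < S := by linarith
  have hS0 : 0 ≤ S := hSp.le
  have hST' : S ≤ T := by linarith
  set V : ℝ := T ^ (2 * k) with hV
  have hVp : 0 < V := by positivity
  -- the error
  set W : ℝ := ((Pk k)ᶜ.card : ℝ) * (2 * C6 * ZB k C5 T) with hW
  have hlog : 0 ≤ Real.log T := Real.log_nonneg hT1'
  have hZB : ZB k C5 T ≤ BF k (1 / 8) * (C5 ^ (k ^ 2) * C7) * T ^ e := by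
    unfold ZB
    have a1 : Real.log T ^ (k ^ 2) ≤ C7 * T ^ e :=
      (pow_le_pow_left₀ hlog (by linarith) _).trans (h7 T hT1')
    rw [mul_pow]
    calc BF k (1 / 8) * (C5 ^ (k ^ 2) * Real.log T ^ (k ^ 2)) ≤
        BF k (1 / 8) * (C5 ^ (k ^ 2) * (C7 * T ^ e)) := by gcongr
      _ = _ := by ring
  have hZB0 : 0 ≤ ZB k C5 T := by unfold ZB; positivity
  have hW0 : 0 ≤ W := by positivity
  have hWle : W ≤ Cw * T ^ e := by
    rw [hW, hCw]
    calc ((Pk k)ᶜ.card : ℝ) * (2 * C6 * ZB k C5 T) ≤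
        ((Pk k)ᶜ.card : ℝ) * (2 * C6 * (BF k (1 / 8) * (C5 ^ (k ^ 2) * C7) * T ^ e)) := by gcongr
      _ = _ := by ring
  have hTe : 0 < T ^ e := Real.rpow_pos_of_pos hTp e
  have hT2e : T ^ (2 * e) = (T ^ e) ^ 2 := by
    rw [← Real.rpow_natCast, ← Real.rpow_mul hTp.le]
    congr 1; push_cast; ring
  have hW2 : W ^ 2 ≤ Cw ^ 2 * T ^ (2 * e) := by
    rw [hT2e, ← mul_pow]
    exact pow_le_pow_left₀ hW0 hWle 2
  have hone := (h5 T 1 hTT5 le_rfl (by
    push_cast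
    exact Real.one_le_rpow hT1' (by norm_num))).1
  have hWb : ∀ γ ∈ Bs k T, ‖Dz S γ‖ ≤ ‖Pool.Agent.TH612.GS.DD S γ‖ +
      ‖Pool.Agent.TH612.GS.DD S (fun i => γ i + S)‖ + W := fun γ hγ =>
    Dz_le hINV (by linarith) hS0 hST F7 hC5 hC6 hone
      (fun γ π a b c => h6 T S γ π hTT6 hS0 hST a b c) hγ
  set M : ENNReal := ∫⁻ γ in Sep k T, ENNReal.ofReal (‖Pool.Agent.TH612.GS.DD S γ‖ ^ 2)
    ∂(mP (Fin k ⊕ Fin k) T) with hM
  have hMu : M ≤ ENNReal.ofReal (C3 * T ^ e * T ^ (2 * k) * S) := h3 T S hTT3 hS0 hST'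
  have hms := Dz_ms hINV hT1' F7 hS0 hST hWb
  -- the test function
  obtain ⟨X, b, hX, hb, hlow⟩ := h1 T S hTT1 hSS1 hST
  have hX4 : (X : ℝ) ≤ 4 * T := by
    refine le_trans ?_ hX
    have : X ≤ X ^ 2 := Nat.le_self_pow (by norm_num) X
    exact_mod_cast this
  set P : (Fin k ⊕ Fin k → ℝ) → ℂ := fun γ => ∑ ν ∈ tup k X, b ν * ch ν γ with hP
  have hPc : Continuous P := continuous_finsetSum _ fun ν hν => continuous_const.mul (ch_cont hν)
  have hle := mB_le (k := k) hTp.le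
  have hAN := t_AN (Fin k ⊕ Fin k → ℝ) (mB k T) (fun γ => ‖Dz S γ‖) (fun γ => ‖P γ‖) V (c1 * S)
    (T ^ (ε / 4) * S) (C2 * (64 * S)) (T ^ (ε / 4) * S ^ 2) (c8 * Real.sqrt S)
    (Dz_cont S).norm.measurable hPc.norm.measurable (fun _ => norm_nonneg _) (fun _ => norm_nonneg _) hVp
    (by positivity) (by positivity) (by positivity) (by positivity) (by positivity)
    (by
      refine (hle univ).trans (le_of_eq ?_)
      rw [mP_univ2 k hTp.le])
    (by
      have a1 : ENNReal.ofReal (c1 * S * T ^ (2 * k)) ≤ ‖∫ γ, Dz S γ * conj (P γ) ∂(mB k T)‖ₑ := by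
        rw [← ofReal_norm]
        exact ENNReal.ofReal_le_ofReal hlow
      refine a1.trans ((enorm_integral_le_lintegral_enorm _).trans (le_of_eq ?_))
      refine lintegral_congr fun γ => ?_
      rw [← ofReal_norm, norm_mul, RCLike.norm_conj])
    (by
      refine (lintegral_mono' hle le_rfl).trans ((h2 T X b hT4 hX4).trans (ENNReal.ofReal_le_ofReal ?_))
      calc C2 * T ^ (2 * k) * ∑ ν ∈ tup k X, ‖b ν‖ ^ 2 ≤ C2 * T ^ (2 * k) * (64 * S) := by gcongr
        _ = _ := by rw [hV]; ring)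
  obtain ⟨hA1, hA2⟩ := hAN
  have hlp : c8 * Real.sqrt S * Real.sqrt (C2 * (64 * S)) ≤ c1 * S / 2 := by
    have a1 : Real.sqrt (C2 * (64 * S)) = 8 * (Real.sqrt C2 * Real.sqrt S) := by
      have : C2 * (64 * S) = 8 ^ 2 * (C2 * S) := by ring
      rw [this, Real.sqrt_mul (by norm_num), Real.sqrt_sq (by norm_num), Real.sqrt_mul hC2.le]
    have a2 : Real.sqrt S * Real.sqrt S = S := Real.mul_self_sqrt hS0
    rw [a1, hc8]
    have a3 : c1 / (16 * Real.sqrt C2) * Real.sqrt S * (8 * (Real.sqrt C2 * Real.sqrt S)) =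
        c1 / 2 * (Real.sqrt S * Real.sqrt S) := by
      field_simp
      ring
    rw [a3, a2]
    linarith
  refine ⟨?_, ?_, ?_⟩
  · -- lower bound for the mean square
    have b1 : (c1 * S) ^ 2 / (C2 * (64 * S)) = c7 * S := by
      rw [hc7]
      field_simp
    rw [b1] at hA1
    have b2 := hA1.trans hms
    have b3 : ENNReal.ofReal (3 * W ^ 2 * T ^ (2 * k)) ≤ ENNReal.ofReal (c7 / 2 * S * V) := by
      refine ENNReal.ofReal_le_ofReal (mul_le_mul_of_nonneg_right ?_ hVp.le)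
      calc 3 * W ^ 2 ≤ 3 * (Cw ^ 2 * T ^ (2 * e)) := by linarith
        _ = 3 * Cw ^ 2 * T ^ (2 * e) := by ring
        _ ≤ c7 / 2 * T ^ ε := F1
        _ ≤ c7 / 2 * S := by gcongr
    have b4 : ENNReal.ofReal (c7 / 2 * S * V) + ENNReal.ofReal (c7 / 2 * S * V) ≤
        6 * M + ENNReal.ofReal (c7 / 2 * S * V) := by
      refine le_trans (le_of_eq ?_) (b2.trans (add_le_add le_rfl b3))
      rw [← ENNReal.ofReal_add (by positivity) (by positivity)]
      congr 1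
      ring
    have b5 : ENNReal.ofReal (c7 / 2 * S * V) ≤ 6 * M := (ENNReal.add_le_add_iff_right ENNReal.ofReal_ne_top).1 b4
    have b6 : ENNReal.ofReal (c7 / 12 * S * V * 6) ≤ M * 6 := by
      rw [mul_comm M]
      refine le_trans (le_of_eq ?_) b5
      congr 1
      ring
    have b7 := cancel (x := c7 / 12 * S * V) (y := 6) (by positivity) (by norm_num) b6 (by simp)
    refine le_trans (ENNReal.ofReal_le_ofReal ?_) b7
    gcongr
    exact min_le_left _ _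
  · refine hMu.trans (ENNReal.ofReal_le_ofReal ?_)
    calc C3 * T ^ e * T ^ (2 * k) * S ≤ T ^ ε * T ^ (2 * k) * S := by gcongr
      _ = _ := by ring
  · -- the measure
    have d1 := hA2 (hms.trans (by
        have d2 : 6 * M ≤ ENNReal.ofReal (6 * (C3 * T ^ e * T ^ (2 * k) * S)) := by
          rw [ENNReal.ofReal_mul (by norm_num)]
          exact mul_le_mul' (by simp) hMu
        refine (add_le_add d2 le_rfl).trans ?_
        rw [← ENNReal.ofReal_add (by positivity) (by positivity)]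
        refine ENNReal.ofReal_le_ofReal ?_
        have d3 : T ^ e ≤ T ^ (2 * e) := Real.rpow_le_rpow_of_exponent_le hT1' (by linarith)
        have d4 : 0 ≤ T ^ (2 * e) := by positivity
        calc 6 * (C3 * T ^ e * T ^ (2 * k) * S) + 3 * W ^ 2 * T ^ (2 * k)
            ≤ 6 * (C3 * T ^ (2 * e) * T ^ (2 * k) * S) + 3 * (Cw ^ 2 * T ^ (2 * e) * S) * T ^ (2 * k) := by
              have d5 : W ^ 2 ≤ Cw ^ 2 * T ^ (2 * e) * S := by
                refine hW2.trans (le_mul_of_one_le_right (by positivity) hS1')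
              gcongr
          _ = (6 * C3 + 3 * Cw ^ 2) * T ^ (2 * e) * S * V := by rw [hV]; ring
          _ ≤ T ^ (ε / 4) * S * V := by gcongr)) (by
      have hle' : ∫⁻ γ, ENNReal.ofReal (‖P γ‖ ^ 4) ∂(mB k T) ≤
          ENNReal.ofReal (C4 * T ^ e * T ^ (2 * k) * (∑ ν ∈ tup k X, ‖b ν‖ ^ 2) ^ 2) :=
        (lintegral_mono' hle le_rfl).trans (h4 T X b hT4 hX)
      refine hle'.trans (ENNReal.ofReal_le_ofReal ?_)
      have hs0 : 0 ≤ ∑ ν ∈ tup k X, ‖b ν‖ ^ 2 := Finset.sum_nonneg fun _ _ => by positivity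
      calc C4 * T ^ e * T ^ (2 * k) * (∑ ν ∈ tup k X, ‖b ν‖ ^ 2) ^ 2 ≤
          C4 * T ^ e * T ^ (2 * k) * (64 * S) ^ 2 := by gcongr
        _ = 4096 * C4 * T ^ e * S ^ 2 * V := by rw [hV]; ring
        _ ≤ T ^ (ε / 4) * S ^ 2 * V := by gcongr) hlp
    have d6 : 2 * T ^ (-ε) ≤ (c1 * S) ^ 4 / (16 * (T ^ (ε / 4) * S) ^ 2 * (T ^ (ε / 4) * S ^ 2)) := by
      have d7 : (c1 * S) ^ 4 / (16 * (T ^ (ε / 4) * S) ^ 2 * (T ^ (ε / 4) * S ^ 2)) =
          c1 ^ 4 / 16 * (T ^ (ε / 4))⁻¹ ^ 3 := by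
        field_simp
      have d8 : T ^ (-ε) = (T ^ (ε / 4))⁻¹ ^ 3 * (T ^ (ε / 4))⁻¹ := by
        rw [← pow_succ, ← Real.rpow_neg hTp.le, ← Real.rpow_natCast, ← Real.rpow_mul hTp.le]
        congr 1; push_cast; ring
      have d9 : 0 < T ^ (ε / 4) := Real.rpow_pos_of_pos hTp _
      rw [d7, d8]
      have d10 : 2 * (T ^ (ε / 4))⁻¹ ≤ c1 ^ 4 / 16 := by
        rw [← div_eq_mul_inv, div_le_iff₀ d9]
        exact F5
      calc 2 * ((T ^ (ε / 4))⁻¹ ^ 3 * (T ^ (ε / 4))⁻¹) = (2 * (T ^ (ε / 4))⁻¹) * (T ^ (ε / 4))⁻¹ ^ 3 := by ring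
        _ ≤ _ := by gcongr
    have hWl : W ≤ c8 * Real.sqrt S / 2 := by
      refine hWle.trans (F2.trans ?_)
      have g1 : T ^ (ε / 2) ≤ Real.sqrt S := by
        rw [Real.sqrt_eq_rpow]
        calc T ^ (ε / 2) = (T ^ ε) ^ (1 / 2 : ℝ) := by
              rw [← Real.rpow_mul hTp.le]; congr 1; ring
          _ ≤ S ^ (1 / 2 : ℝ) := Real.rpow_le_rpow (by positivity) hTS (by norm_num)
      calc c8 / 2 * T ^ (ε / 2) ≤ c8 / 2 * Real.sqrt S := by gcongr
        _ = _ := by ring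
    have d11 := meas_le hTp.le F7 hS0 hST hWl hWb
    set A : Set (Fin k ⊕ Fin k → ℝ) := {γ | γ ∈ Sep k T ∧ c8 * Real.sqrt S / 4 ≤
      ‖Pool.Agent.TH612.GS.DD S γ‖} with hA
    have d12 : ENNReal.ofReal (T ^ (-ε) * V * 2) ≤ volume A * 2 := by
      rw [mul_comm (volume A)]
      refine le_trans (ENNReal.ofReal_le_ofReal ?_) (d1.trans d11)
      calc T ^ (-ε) * V * 2 = 2 * T ^ (-ε) * V := by ring
        _ ≤ _ := by gcongr
    have d13 := cancel (x := T ^ (-ε) * V) (y := 2) (by positivity) (by norm_num) d12 (by simp)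
    have d14 : T ^ (2 * k - ε : ℝ) = T ^ (-ε) * V := by
      rw [hV, ← Real.rpow_natCast, ← Real.rpow_add hTp]
      congr 1; push_cast; ring
    rw [d14]
    refine d13.trans ?_
    rw [vol_cube (T := T) (E := A) fun γ hγ => hγ.1.1]
    refine measure_mono ?_
    rintro γ ⟨g1, g2⟩
    refine ⟨g1.1, le_trans ?_ g2⟩
    rw [← Real.sqrt_eq_rpow]
    calc min (c7 / 12) (c8 / 4) * Real.sqrt S ≤ c8 / 4 * Real.sqrt S := by
          gcongr
          exact min_le_right _ _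
      _ = _ := by ring

end

end Pool.Agent.D0H82.SX
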