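import Pool.Agent.D0H82.SX.StmW
import Pool.Agent.D0H82.SX.FinB

set_option autoImplicit false

/-! Project SX, weights: the pointwise comparison, mean squares. -/

namespace Pool.Agent.D0H82.SX

open Complex Filter Topology MeasureTheory Set
open scoped ComplexConjugate
open Pool.Agent.TH612.CF
open Pool.Agent.TH612.GS
open Pool.Agent.D0H82.SR

noncomputable section

variable {k : ℕ}

/-- the integral of a swap factor with the weight `w` -/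
def IGW (w : ℝ → ℂ) (S : ℝ) (γ : Fin k ⊕ Fin k → ℝ) (π : Equiv.Perm (Fin k ⊕ Fin k)) : ℂ :=
  ∫ t in (0:ℝ)..S, w (t / S) * GG t (fun i => (γ i : ℂ)) π

lemma DW_eq (hINV : S_INV) {w : ℝ → ℂ} (hw : Continuous w) (S : ℝ) (γ : Fin k ⊕ Fin k → ℝ) : DW w S γ =
    (∫ t in (0:ℝ)..S, w (t / S) * Zg γ t) - (∫ t in (0:ℝ)..S, w (t / S)) * zr γ -
      ((Nat.factorial k : ℂ) ^ 2)⁻¹ * ∑ π ∈ (Pk k)ᶜ, IGW w S γ π * zp γ π := by
  have hwc : Continuous fun t : ℝ => w (t / S) := hw.comp (by fun_prop)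
  have hi : ∀ f : ℝ → ℂ, Continuous f → IntervalIntegrable f volume 0 S := fun f hf => hf.intervalIntegrable _ _
  have e0 : DW w S γ = (∫ t in (0:ℝ)..S, w (t / S) * Zg γ t) -
      ((Nat.factorial k : ℂ) ^ 2)⁻¹ * ∫ t in (0:ℝ)..S, w (t / S) * Qs t (fun i => (γ i : ℂ)) := by
    unfold DW
    have a1 : Continuous fun t : ℝ => w (t / S) * Zg γ t := hwc.mul (Zg_cont γ)
    have a2 : Continuous fun t : ℝ => ((Nat.factorial k : ℂ) ^ 2)⁻¹ * (w (t / S) * Qs t (fun i => (γ i : ℂ))) :=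
      continuous_const.mul (hwc.mul (Qs_cont γ))
    rw [← intervalIntegral.integral_const_mul, ← intervalIntegral.integral_sub (hi _ a1) (hi _ a2)]
    refine intervalIntegral.integral_congr fun t _ => ?_
    ring
  have e1 : ∫ t in (0:ℝ)..S, w (t / S) * Qs t (fun i => (γ i : ℂ)) =
      ∑ π : Equiv.Perm (Fin k ⊕ Fin k), IGW w S γ π * zp γ π := by
    have e2 : ∀ t : ℝ, w (t / S) * Qs t (fun i => (γ i : ℂ)) =
        ∑ π : Equiv.Perm (Fin k ⊕ Fin k), (w (t / S) * GG t (fun i => (γ i : ℂ)) π) * zp γ π := by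
      intro t
      rw [Qs_zp, Finset.mul_sum]
      exact Finset.sum_congr rfl fun π _ => by ring
    simp only [e2]
    rw [intervalIntegral.integral_finsetSum]
    · refine Finset.sum_congr rfl fun π _ => ?_
      rw [intervalIntegral.integral_mul_const]
      rfl
    · intro π _
      exact hi _ ((hwc.mul (GG_cont_t γ π)).mul continuous_const)
  rw [e0, e1, ← Finset.sum_add_sum_compl (Pk k)]
  have h1 : ∑ π ∈ Pk k, IGW w S γ π * zp γ π = ∑ π ∈ Pk k, (∫ t in (0:ℝ)..S, w (t / S)) * zr γ := by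
    refine Finset.sum_congr rfl fun π hπ => ?_
    have hπ' : ∀ j, (π (Sum.inr j)).isLeft = false := by
      unfold Pk at hπ
      exact (Finset.mem_filter.1 hπ).2
    obtain ⟨h2, h3⟩ := hINV k γ π hπ'
    unfold IGW
    simp only [h3, mul_one]
    unfold zp
    rw [h2]
  rw [h1, Finset.sum_const, card_Pk, nsmul_eq_mul]
  have h4 : ((Nat.factorial k : ℂ) ^ 2) ≠ 0 := by
    have := Nat.factorial_ne_zero k
    positivity
  push_cast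
  rw [mul_add, ← mul_assoc, inv_mul_cancel₀ h4, one_mul]
  ring

lemma DzW_eq (hINV : S_INV) {w : ℝ → ℂ} (hw : Continuous w) (S : ℝ) (γ : Fin k ⊕ Fin k → ℝ) : DzW w S γ =
    DW w S γ - DW w S (fun i => γ i + S) +
      ((Nat.factorial k : ℂ) ^ 2)⁻¹ * ∑ π ∈ (Pk k)ᶜ, (IGW w S γ π - IGW w S (fun i => γ i + S) π) * zp γ π := by
  have h1 := DW_eq hINV hw S γ
  have h2 := DW_eq hINV hw S (fun i => γ i + S)
  have e1 : ∫ t in (0:ℝ)..S, w (t / S) * Zg (fun i => γ i + S) t = ∫ t in (0:ℝ)..S, w (t / S) * Zg γ (t + S) :=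
    intervalIntegral.integral_congr fun t _ => by
      show w (t / S) * Zg (fun i => γ i + S) t = w (t / S) * Zg γ (t + S)
      rw [Zg_trans]
  have e2 : zr (fun i => γ i + S) = zr γ := zp_trans γ S 1
  have e3 : ∑ π ∈ (Pk k)ᶜ, IGW w S (fun i => γ i + S) π * zp (fun i => γ i + S) π =
      ∑ π ∈ (Pk k)ᶜ, IGW w S (fun i => γ i + S) π * zp γ π :=
    Finset.sum_congr rfl fun π _ => by rw [zp_trans]
  rw [e1, e2, e3] at h2
  rw [h1, h2]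
  unfold DzW
  simp only [sub_mul, Finset.sum_sub_distrib]
  ring

lemma IGW_le (hBYP : S_BYP) {w : ℝ → ℂ} (hw : ContDiff ℝ 1 w) {K C6 S : ℝ} (hS : 0 < S)
    (hK : ∀ x ∈ Icc (0:ℝ) 1, ‖w x‖ ≤ K ∧ ‖deriv w x‖ ≤ K) (γ : Fin k ⊕ Fin k → ℝ)
    (π : Equiv.Perm (Fin k ⊕ Fin k)) (h : ∀ t, 0 ≤ t → t ≤ S → ‖IG t γ π‖ ≤ C6) : ‖IGW w S γ π‖ ≤ 2 * K * C6 := by
  have hK0 : 0 ≤ K := (norm_nonneg _).trans (hK 0 (by simp)).1
  have h1 := hBYP w (fun t => GG t (fun i => (γ i : ℂ)) π) S K hw (GG_cont_t γ π) hS hK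
  unfold IGW
  refine h1.trans ?_
  have h2 : ‖∫ t in (0:ℝ)..S, GG t (fun i => (γ i : ℂ)) π‖ ≤ C6 := h S hS.le le_rfl
  have h3 : ∫ t in (0:ℝ)..S, ‖∫ u in (0:ℝ)..t, GG u (fun i => (γ i : ℂ)) π‖ ≤ S * C6 := by
    have h4 := intervalIntegral.norm_integral_le_of_norm_le_const (a := (0:ℝ)) (b := S) (C := C6)
      (f := fun t : ℝ => ‖∫ u in (0:ℝ)..t, GG u (fun i => (γ i : ℂ)) π‖) (fun t ht => by
        rw [uIoc_of_le hS.le] at ht
        rw [norm_norm]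
        exact h t ht.1.le ht.2)
    rw [sub_zero, abs_of_pos hS, mul_comm C6] at h4
    exact (Real.le_norm_self _).trans h4
  have h5 : S⁻¹ * ∫ t in (0:ℝ)..S, ‖∫ u in (0:ℝ)..t, GG u (fun i => (γ i : ℂ)) π‖ ≤ C6 := by
    calc S⁻¹ * ∫ t in (0:ℝ)..S, ‖∫ u in (0:ℝ)..t, GG u (fun i => (γ i : ℂ)) π‖ ≤ S⁻¹ * (S * C6) := by gcongr
      _ = C6 := by field_simp
  calc K * ‖∫ t in (0:ℝ)..S, GG t (fun i => (γ i : ℂ)) π‖ +
      K * (S⁻¹ * ∫ t in (0:ℝ)..S, ‖∫ u in (0:ℝ)..t, GG u (fun i => (γ i : ℂ)) π‖) ≤ K * C6 + K * C6 := by gcongr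
    _ = _ := by ring

lemma DzW_le (hINV : S_INV) (hBYP : S_BYP) {w : ℝ → ℂ} (hw : ContDiff ℝ 1 w) {K T S C6 C5 : ℝ} (hT : 3 ≤ T)
    (hS : 0 < S) (hST : S ≤ T / 24) (hK : ∀ x ∈ Icc (0:ℝ) 1, ‖w x‖ ≤ K ∧ ‖deriv w x‖ ≤ K)
    (hT2 : T ^ (1 / 2 : ℝ) ≤ dl k * T) (hC5 : 0 < C5) (hC6 : 0 < C6)
    (h5 : ∀ v : ℝ, 1 ≤ |v| → |v| ≤ T → ‖riemannZeta (1 + I * v)‖ ≤ C5 * Real.log T)
    (h6 : ∀ (S : ℝ) (γ : Fin k ⊕ Fin k → ℝ) (π : Equiv.Perm (Fin k ⊕ Fin k)), 0 ≤ S → S ≤ T / 24 →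
      (∃ j, (π (Sum.inr j)).isLeft = true) →
      (∀ j, T / 2 ≤ γ (Sum.inl j)) → (∀ j, T / 8 ≤ γ (Sum.inr j) ∧ γ (Sum.inr j) ≤ 7 / 24 * T) →
      ‖∫ t in (0:ℝ)..S, GG t (fun i => (γ i : ℂ)) π‖ ≤ C6)
    {γ : Fin k ⊕ Fin k → ℝ} (hγ : γ ∈ Bs k T) :
    ‖DzW w S γ‖ ≤ ‖DW w S γ‖ + ‖DW w S (fun i => γ i + S)‖ +
      ((Pk k)ᶜ.card : ℝ) * (2 * (2 * K * C6) * ZB k C5 T) := by
  have hT0 : 0 ≤ T := by linarith
  have hK0 : 0 ≤ K := (norm_nonneg _).trans (hK 0 (by simp)).1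
  have hl : ∀ π ∈ (Pk k)ᶜ, ∃ j, (π (Sum.inr j)).isLeft = true := by
    intro π hπ
    rw [Finset.mem_compl] at hπ
    unfold Pk at hπ
    simp only [Finset.mem_filter, Finset.mem_univ, true_and, not_forall, Bool.not_eq_false] at hπ
    exact hπ
  have hb : ∀ π ∈ (Pk k)ᶜ, ‖(IGW w S γ π - IGW w S (fun i => γ i + S) π) * zp γ π‖ ≤
      2 * (2 * K * C6) * ZB k C5 T := by
    intro π hπ
    rw [norm_mul]
    have g1 : ‖IGW w S γ π‖ ≤ 2 * K * C6 := IGW_le hBYP hw hS hK γ π fun t ht0 ht => h6 t γ π ht0 (ht.trans hST)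
      (hl π hπ) (Bs_inl hT0 hγ) fun j => ⟨(Bs_inr hT0 hγ j).1, by linarith [(Bs_inr hT0 hγ j).2]⟩
    have g2 : ‖IGW w S (fun i => γ i + S) π‖ ≤ 2 * K * C6 := IGW_le hBYP hw hS hK (fun i => γ i + S) π
      fun t ht0 ht => h6 t (fun i => γ i + S) π ht0 (ht.trans hST) (hl π hπ)
      (fun j => by linarith [Bs_inl hT0 hγ j]) fun j =>
      ⟨by linarith [(Bs_inr hT0 hγ j).1], by linarith [(Bs_inr hT0 hγ j).2]⟩
    refine mul_le_mul ?_ (zp_bd hT hC5 h5 (Bs_sub hT0 hT2 hγ) π) (norm_nonneg _) (by positivity)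
    refine (norm_sub_le _ _).trans ?_
    linarith
  rw [DzW_eq hINV hw.continuous]
  refine (norm_add_le _ _).trans (add_le_add (norm_sub_le _ _) ?_)
  rw [norm_mul]
  calc ‖((Nat.factorial k : ℂ) ^ 2)⁻¹‖ * ‖∑ π ∈ (Pk k)ᶜ, (IGW w S γ π - IGW w S (fun i => γ i + S) π) * zp γ π‖
      ≤ 1 * ∑ π ∈ (Pk k)ᶜ, 2 * (2 * K * C6) * ZB k C5 T :=
        mul_le_mul inv_le_one ((norm_sum_le _ _).trans (Finset.sum_le_sum hb)) (norm_nonneg _) (by norm_num)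
    _ = _ := by rw [one_mul, Finset.sum_const, nsmul_eq_mul]

lemma wZ_cont {w : ℝ → ℂ} (hw : Continuous w) (S A : ℝ) :
    Continuous fun γ : Fin k ⊕ Fin k → ℝ => ∫ t in (0:ℝ)..S, w (t / S) * Zg γ (t + A) := by
  refine intervalIntegral.continuous_parametric_intervalIntegral_of_continuous
    (f := fun (γ : Fin k ⊕ Fin k → ℝ) (t : ℝ) => w (t / S) * Zg γ (t + A)) ?_ continuous_const
  have h1 : Continuous fun p : (Fin k ⊕ Fin k → ℝ) × ℝ => Zg p.1 (p.2 + A) := by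
    simp only [Zg_fz]
    exact (prod2_cont z_cont).comp (f := fun p : (Fin k ⊕ Fin k → ℝ) × ℝ => (p.1, p.2 + A)) (by fun_prop)
  exact (hw.comp (by fun_prop)).mul h1

lemma DzW_cont {w : ℝ → ℂ} (hw : Continuous w) (S : ℝ) :
    Continuous fun γ : Fin k ⊕ Fin k → ℝ => DzW w S γ := by
  unfold DzW
  have h := wZ_cont (k := k) hw S 0
  simp only [add_zero] at h
  exact h.sub (wZ_cont hw S S)

lemma IGW_cont {w : ℝ → ℂ} (hw : Continuous w) (S : ℝ) (π : Equiv.Perm (Fin k ⊕ Fin k)) :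
    Continuous fun γ : Fin k ⊕ Fin k → ℝ => IGW w S γ π := by
  unfold IGW
  refine intervalIntegral.continuous_parametric_intervalIntegral_of_continuous
    (f := fun (γ : Fin k ⊕ Fin k → ℝ) (t : ℝ) => w (t / S) * GG t (fun i => (γ i : ℂ)) π) ?_ continuous_const
  exact (hw.comp (by fun_prop)).mul (GG_cont_2 π)

lemma DW_contOn (hINV : S_INV) {w : ℝ → ℂ} (hw : Continuous w) {T : ℝ} (hT : 1 ≤ T) (S : ℝ) :
    ContinuousOn (fun γ : Fin k ⊕ Fin k → ℝ => DW w S γ) (Sep k T) := by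
  have e : (fun γ : Fin k ⊕ Fin k → ℝ => DW w S γ) = fun γ => (∫ t in (0:ℝ)..S, w (t / S) * Zg γ t) -
      (∫ t in (0:ℝ)..S, w (t / S)) * zr γ -
      ((Nat.factorial k : ℂ) ^ 2)⁻¹ * ∑ π ∈ (Pk k)ᶜ, IGW w S γ π * zp γ π := by
    funext γ
    rw [DW_eq hINV hw]
  rw [e]
  have h := wZ_cont (k := k) hw S 0
  simp only [add_zero] at h
  refine ((h.continuousOn).sub (continuousOn_const.mul (zr_cont hT))).sub ?_
  refine continuousOn_const.mul (continuousOn_finsetSum _ fun π _ => ?_)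
  exact (IGW_cont hw S π).continuousOn.mul (zp_contOn hT π)

/-- the mean square of `Z` against that of `D` -/
lemma ms_gen {D Z : (Fin k ⊕ Fin k → ℝ) → ℂ} {T S W : ℝ} (hT : 1 ≤ T) (hT2 : T ^ (1 / 2 : ℝ) ≤ dl k * T)
    (hS : 0 ≤ S) (hS2 : S ≤ T / 24) (hDc : ContinuousOn D (Sep k T))
    (hW : ∀ γ ∈ Bs k T, ‖Z γ‖ ≤ ‖D γ‖ + ‖D (fun i => γ i + S)‖ + W) :
    ∫⁻ γ, ENNReal.ofReal (‖Z γ‖ ^ 2) ∂(mB k T) ≤
      6 * (∫⁻ γ in Sep k T, ENNReal.ofReal (‖D γ‖ ^ 2) ∂(mP (Fin k ⊕ Fin k) T)) +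
        ENNReal.ofReal (3 * W ^ 2 * T ^ (2 * k)) := by
  have hT0 : 0 ≤ T := by linarith
  set M : ENNReal := ∫⁻ γ in Sep k T, ENNReal.ofReal (‖D γ‖ ^ 2) ∂(mP (Fin k ⊕ Fin k) T) with hM
  rw [restr_Sep] at hM
  have hun : (volume : Measure (Fin k ⊕ Fin k → ℝ)) (Bs k T) ≤ ENNReal.ofReal (T ^ (2 * k)) := by
    have h1 : mB k T univ ≤ mP (Fin k ⊕ Fin k) T univ := mB_le hT0 univ
    rw [mP_univ2 k hT0, mB_eq, Measure.restrict_apply_univ] at h1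
    exact h1
  rw [mB_eq]
  have h1 : ∀ γ ∈ Bs k T, ENNReal.ofReal (‖Z γ‖ ^ 2) ≤ 3 * ENNReal.ofReal (‖D γ‖ ^ 2) +
      (3 * ENNReal.ofReal (‖D (fun i => γ i + S)‖ ^ 2) + ENNReal.ofReal (3 * W ^ 2)) := by
    intro γ hγ
    have e3 : (3 : ENNReal) = ENNReal.ofReal 3 := by simp
    rw [e3, ← ENNReal.ofReal_mul (by norm_num), ← ENNReal.ofReal_mul (by norm_num),
      ← ENNReal.ofReal_add (by positivity) (by positivity), ← ENNReal.ofReal_add (by positivity) (by positivity)]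
    refine ENNReal.ofReal_le_ofReal ?_
    exact (pow_le_pow_left₀ (norm_nonneg _) (hW γ hγ) 2).trans (three_sq _ _ _)
  have hm1 : AEMeasurable (fun γ : Fin k ⊕ Fin k → ℝ => 3 * ENNReal.ofReal (‖D γ‖ ^ 2))
      (volume.restrict (Bs k T)) := by
    refine AEMeasurable.const_mul ?_ _
    refine AEMeasurable.ennreal_ofReal ?_
    exact (((hDc.mono (Bs_sub hT0 hT2)).norm).pow 2).aemeasurable (Bs_meas k T)
  calc ∫⁻ γ in Bs k T, ENNReal.ofReal (‖Z γ‖ ^ 2)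
      ≤ ∫⁻ γ in Bs k T, (3 * ENNReal.ofReal (‖D γ‖ ^ 2) +
        (3 * ENNReal.ofReal (‖D (fun i => γ i + S)‖ ^ 2) + ENNReal.ofReal (3 * W ^ 2))) :=
        setLIntegral_mono' (Bs_meas k T) h1
    _ = (∫⁻ γ in Bs k T, 3 * ENNReal.ofReal (‖D γ‖ ^ 2)) +
        ((∫⁻ γ in Bs k T, 3 * ENNReal.ofReal (‖D (fun i => γ i + S)‖ ^ 2)) +
          ENNReal.ofReal (3 * W ^ 2) * volume (Bs k T)) := by
        rw [lintegral_add_left' hm1, lintegral_add_right' _ aemeasurable_const, lintegral_const,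
          Measure.restrict_apply_univ]
    _ ≤ 3 * M + (3 * M + ENNReal.ofReal (3 * W ^ 2 * T ^ (2 * k))) := by
        refine add_le_add ?_ (add_le_add ?_ ?_)
        · rw [lintegral_const_mul' _ _ (by norm_num), hM]
          exact mul_le_mul' le_rfl (lintegral_mono_set (Bs_sub hT0 hT2))
        · rw [lintegral_const_mul' _ _ (by norm_num), hM]
          exact mul_le_mul' le_rfl (trans_le' hT0 hT2 hS hS2 (fun γ => ENNReal.ofReal (‖D γ‖ ^ 2)))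
        · rw [ENNReal.ofReal_mul (p := 3 * W ^ 2) (by positivity)]
          exact mul_le_mul' le_rfl hun
    _ = 6 * M + ENNReal.ofReal (3 * W ^ 2 * T ^ (2 * k)) := by
        rw [← add_assoc, ← add_mul]
        norm_num

/-- from the large values of `Z` to those of `D` -/
lemma meas_gen {D Z : (Fin k ⊕ Fin k → ℝ) → ℂ} {T S W l : ℝ} (hT : 0 ≤ T) (hT2 : T ^ (1 / 2 : ℝ) ≤ dl k * T)
    (hS : 0 ≤ S) (hS2 : S ≤ T / 24) (hZ : Continuous Z) (hWl : W ≤ l / 2)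
    (hW : ∀ γ ∈ Bs k T, ‖Z γ‖ ≤ ‖D γ‖ + ‖D (fun i => γ i + S)‖ + W) :
    mB k T {γ | l ≤ ‖Z γ‖} ≤ 2 * (volume : Measure (Fin k ⊕ Fin k → ℝ))
      {γ | γ ∈ Sep k T ∧ l / 4 ≤ ‖D γ‖} := by
  set A : Set (Fin k ⊕ Fin k → ℝ) := {γ | γ ∈ Sep k T ∧ l / 4 ≤ ‖D γ‖} with hA
  have hE : MeasurableSet {γ : Fin k ⊕ Fin k → ℝ | l ≤ ‖Z γ‖} :=
    (isClosed_le continuous_const hZ.norm).measurableSet
  rw [mB_eq, Measure.restrict_apply hE]
  have hsub : {γ : Fin k ⊕ Fin k → ℝ | l ≤ ‖Z γ‖} ∩ Bs k T ⊆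
      A ∪ (fun γ : Fin k ⊕ Fin k → ℝ => γ + fun _ => S) ⁻¹' A := by
    rintro γ ⟨h1, h2⟩
    have h3 : l ≤ ‖Z γ‖ := h1
    have h4 := hW γ h2
    by_cases h5 : l / 4 ≤ ‖D γ‖
    · exact Or.inl ⟨Bs_sub hT hT2 h2, h5⟩
    · refine Or.inr ⟨Bs_sep hT hT2 hS hS2 h2, ?_⟩
      push Not at h5
      have h6 : l / 4 ≤ ‖D (fun i => γ i + S)‖ := by linarith
      exact h6
  refine (measure_mono hsub).trans ((measure_union_le _ _).trans (le_of_eq ?_))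
  rw [measure_preimage_add_right, two_mul]

/-- the fourth moment for longer sums -/
lemma P4A (hP4 : S_P4) (k : ℕ) {ε A : ℝ} (hε : 0 < ε) (hA : 1 ≤ A) : ∃ C : ℝ, 0 < C ∧
    ∀ (T : ℝ) (X : ℕ) (c : (Fin k ⊕ Fin k → ℕ) → ℂ), 4 ≤ T → (X : ℝ) ^ 2 ≤ A * T →
    ∫⁻ γ, ENNReal.ofReal (‖∑ ν ∈ tup k X, c ν * ch ν γ‖ ^ 4) ∂(mP (Fin k ⊕ Fin k) T) ≤
      ENNReal.ofReal (C * T ^ ε * T ^ (2 * k) * (∑ ν ∈ tup k X, ‖c ν‖ ^ 2) ^ 2) := by
  obtain ⟨C, hC, h⟩ := hP4 k ε hε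
  refine ⟨C * A ^ ε * A ^ (2 * k), by positivity, fun T X c hT hX => ?_⟩
  have hT0 : 0 ≤ T := by linarith
  have hAT : T ≤ A * T := le_mul_of_one_le_left hT0 hA
  have h1 := h (A * T) X c (by linarith) (by linarith)
  have h2 : mP (Fin k ⊕ Fin k) T ≤ mP (Fin k ⊕ Fin k) (A * T) := by
    rw [mP_eq, mP_eq]
    refine Measure.restrict_mono ?_ le_rfl
    intro γ hγ i hi
    exact ⟨(hγ i hi).1, (hγ i hi).2.trans hAT⟩
  refine (lintegral_mono' h2 le_rfl).trans (h1.trans (ENNReal.ofReal_le_ofReal (le_of_eq ?_)))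
  rw [Real.mul_rpow (by linarith) hT0, mul_pow]
  ring

end

end Pool.Agent.D0H82.SX
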